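import Mathlib

/-!
# MODULE Asym (medium): choice of r and M
`K₀ = 10 (k + 2)`, `p r = P (r+1)^e K₀ (r+1)` (take `P ≥ 1`), `M = 4^r / p r` (natural division), for large `r`
`4^r / (2 p r) ≤ M ≤ 4^r / p r` as real numbers, `1 ≤ M`.
(a) `(1 - 1/M)^n ≤ exp (-n/M)`, `n + k ≥ 4^r / (P (r+1)^e)`, so `n / M ≥ K₀ (r+1) - k`, and
`2^(2(3r+1)) (2^(3r+1)+1)^k ≤ 2^((3r+2)(k+2)) ≤ exp ((3r+2)(k+2))`; total `≤ exp ((3r+2)(k+2) + k - 10 (k+2)(r+1)) ≤ 1/4`.
(b) `2^(3r+1) (3r+2)^(2C) (1/M)^2 ≤ 2 (1/2)^r * polynomial`.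
(c) the term `j` is `6 (216/256)^r * polynomial` since `2^(3r+1) 3^(3r+1) 4^(r(j-1)) / 4^(r(j+3)) = 6 (216/256)^r`.
Polynomial times `q^r` tends to `0` for `0 ≤ q < 1` (`tendsto_pow_const_mul_const_pow_of_abs_lt_one`).
-/

set_option autoImplicit false

open Finset

namespace Pool.Agent.Hen

theorem asym_tend (D : ℕ) (q : ℝ) (h0 : 0 < q) (h1 : q < 1) (c : ℝ) :
    Filter.Tendsto (fun r : ℕ => c * ((3 * (r : ℝ) + 2) ^ D * q ^ r)) Filter.atTop (nhds 0) := by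
  have h := tendsto_pow_const_mul_const_pow_of_abs_lt_one D (r := q)
    (by rw [abs_of_pos h0]; exact h1)
  have h2 := (Filter.tendsto_add_atTop_iff_nat 1).mpr h
  have h3 : Filter.Tendsto (fun r : ℕ => (3 : ℝ) ^ D * q⁻¹ * ((((r + 1 : ℕ) : ℝ)) ^ D * q ^ (r + 1)))
      Filter.atTop (nhds 0) := by
    simpa using h2.const_mul ((3 : ℝ) ^ D * q⁻¹)
  have h4 : Filter.Tendsto (fun r : ℕ => ((3 * (r : ℝ) + 2) ^ D * q ^ r)) Filter.atTop (nhds 0) := by
    refine squeeze_zero (fun r => by positivity) (fun r => ?_) h3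
    have e1 : (3 : ℝ) ^ D * q⁻¹ * ((((r + 1 : ℕ) : ℝ)) ^ D * q ^ (r + 1)) =
        (3 * ((r : ℝ) + 1)) ^ D * q ^ r := by
      push_cast
      rw [mul_pow, pow_succ]
      field_simp
    rw [e1]
    gcongr
    linarith
  simpa using h4.const_mul c

theorem asym_aux (k P e : ℕ) : ∃ D : ℕ, ∃ c : ℝ, 0 ≤ c ∧ ∀ r : ℕ,
    (2 * ((P * (r + 1) ^ e * (10 * (k + 2) * (r + 1)) : ℕ) : ℝ)) ≤ c * (3 * (r : ℝ) + 2) ^ D := by
  refine ⟨e + 1, 2 * P * (10 * (k + 2)), by positivity, fun r => ?_⟩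
  have h1 : ((r : ℝ) + 1) ^ (e + 1) ≤ (3 * (r : ℝ) + 2) ^ (e + 1) := by
    gcongr
    · have : (0 : ℝ) ≤ r := Nat.cast_nonneg r
      linarith
    · linarith
  have h2 : (2 * ((P * (r + 1) ^ e * (10 * (k + 2) * (r + 1)) : ℕ) : ℝ)) =
      2 * P * (10 * (k + 2)) * ((r : ℝ) + 1) ^ (e + 1) := by
    push_cast
    ring
  rw [h2]
  gcongr

theorem asym (k C P e r₀ : ℕ) (hP : 1 ≤ P) : ∃ r M : ℕ, r₀ ≤ r ∧ 1 ≤ M ∧
    (∀ n : ℕ, 4 ^ r ≤ P * (r + 1) ^ e * (n + k) →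
      ((2 : ℝ) ^ (3 * r + 1)) ^ 2 * ((2 : ℝ) ^ (3 * r + 1) + 1) ^ k * (1 - 1 / (M : ℝ)) ^ n ≤
        1 / 4) ∧
    (2 : ℝ) ^ (3 * r + 1) * (3 * r + 2) ^ (2 * C) * (1 / (M : ℝ)) ^ 2 ≤ 1 / 4 ∧
    ∑ j ∈ Icc 1 k, (2 : ℝ) ^ (3 * r + 1) * 3 ^ (3 * r + 1) * 4 ^ (r * (j - 1)) *
      (3 * r + 2) ^ (C * j + 2 * C) * 2 ^ (2 ^ j) * (1 / (M : ℝ)) ^ (j + 3) ≤ 1 / 4 := by
  obtain ⟨D, c, hc, hD⟩ := asym_aux k P e
  -- eventually p ≤ 4^r / 2
  have ev1 : ∀ᶠ r : ℕ in Filter.atTop, c * ((3 * (r : ℝ) + 2) ^ D * (1 / 4) ^ r) ≤ 1 :=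
    (asym_tend D (1 / 4) (by norm_num) (by norm_num) c).eventually (ge_mem_nhds (by norm_num))
  have ev2 : ∀ᶠ r : ℕ in Filter.atTop,
      (2 * c ^ 2) * ((3 * (r : ℝ) + 2) ^ (2 * C + 2 * D) * (1 / 2) ^ r) ≤ 1 / 4 :=
    (asym_tend _ (1 / 2) (by norm_num) (by norm_num) _).eventually (ge_mem_nhds (by norm_num))
  have ev3 : ∀ᶠ r : ℕ in Filter.atTop,
      ∑ j ∈ Icc 1 k, (6 * 2 ^ (2 ^ j) * c ^ (j + 3)) *
        ((3 * (r : ℝ) + 2) ^ (C * j + 2 * C + D * (j + 3)) * (216 / 256) ^ r) ≤ 1 / 4 := by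
    have := tendsto_finset_sum (Icc 1 k) (fun j _ =>
      asym_tend (C * j + 2 * C + D * (j + 3)) (216 / 256) (by norm_num) (by norm_num)
        (6 * 2 ^ (2 ^ j) * c ^ (j + 3)))
    simp only [Finset.sum_const_zero] at this
    exact this.eventually (ge_mem_nhds (by norm_num))
  obtain ⟨r, hr1, hr2, hr3, hr0⟩ :=
    (ev1.and (ev2.and (ev3.and (Filter.eventually_ge_atTop r₀)))).exists
  set p : ℕ := P * (r + 1) ^ e * (10 * (k + 2) * (r + 1)) with hp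
  have hp1 : 1 ≤ p := by
    rw [hp]
    exact Nat.one_le_iff_ne_zero.mpr (by positivity)
  have hp2 : 2 * (p : ℝ) ≤ c * (3 * (r : ℝ) + 2) ^ D := hD r
  have h4 : (0 : ℝ) < 4 ^ r := by positivity
  have hp3 : 2 * (p : ℝ) ≤ 4 ^ r := by
    have : c * (3 * (r : ℝ) + 2) ^ D ≤ 4 ^ r := by
      have e1 : c * ((3 * (r : ℝ) + 2) ^ D * (1 / 4) ^ r) = c * (3 * (r : ℝ) + 2) ^ D / 4 ^ r := by
        rw [div_pow, one_pow]
        ring
      rw [e1, div_le_one h4] at hr1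
      exact hr1
    linarith
  have hp3' : 2 * p ≤ 4 ^ r := by exact_mod_cast hp3
  set M : ℕ := 4 ^ r / p with hM
  have hppos : (0 : ℝ) < p := by exact_mod_cast hp1
  have hM1 : (M : ℝ) ≤ 4 ^ r / p := by
    rw [le_div_iff₀ hppos]
    have := Nat.div_mul_le_self (4 ^ r) p
    exact_mod_cast this
  have hMp : 1 ≤ M := by
    rw [hM]
    exact (Nat.one_le_div_iff (by omega)).mpr (by omega)
  have hM2 : (4 : ℝ) ^ r / (2 * p) ≤ M := by
    rw [div_le_iff₀ (by positivity)]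
    have h5 : 4 ^ r < p * (M + 1) := by
      have := Nat.lt_mul_div_succ (4 ^ r) (show 0 < p by omega)
      simpa [hM] using this
    have h6 : (4 : ℝ) ^ r < p * (M + 1) := by exact_mod_cast h5
    have h7 : (1 : ℝ) ≤ M := by exact_mod_cast hMp
    nlinarith
  have hMpos : (0 : ℝ) < M := by exact_mod_cast hMp
  have hMinv : 1 / (M : ℝ) ≤ c * (3 * (r : ℝ) + 2) ^ D / 4 ^ r := by
    rw [div_le_div_iff₀ hMpos h4]
    rw [div_le_iff₀ (by positivity)] at hM2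
    nlinarith
  refine ⟨r, M, hr0, hMp, ?_, ?_, ?_⟩
  · intro n hn
    have hn' : (4 : ℝ) ^ r ≤ P * (r + 1) ^ e * (n + k) := by exact_mod_cast hn
    have hA : (1 - 1 / (M : ℝ)) ^ n ≤ Real.exp (-(n / M)) := by
      have h1 : 1 - 1 / (M : ℝ) ≤ Real.exp (-(1 / M)) := by
        have := Real.add_one_le_exp (-(1 / (M : ℝ)))
        linarith
      have h0 : 0 ≤ 1 - 1 / (M : ℝ) := by
        have : 1 / (M : ℝ) ≤ 1 := by
          rw [div_le_one hMpos]
          exact_mod_cast hMp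
        linarith
      calc (1 - 1 / (M : ℝ)) ^ n ≤ (Real.exp (-(1 / M))) ^ n := pow_le_pow_left₀ h0 h1 n
        _ = Real.exp (-(n / M)) := by
          rw [← Real.exp_nat_mul]
          congr 1
          ring
    have hB : (10 * ((k : ℝ) + 2) * (r + 1)) - k ≤ n / M := by
      have h1 : (n : ℝ) * p / 4 ^ r ≤ n / M := by
        rw [div_le_div_iff₀ h4 hMpos]
        rw [le_div_iff₀ hppos] at hM1
        have hn0 : (0 : ℝ) ≤ n := Nat.cast_nonneg n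
        nlinarith
      refine le_trans ?_ h1
      rw [le_div_iff₀ h4]
      have h2 : (p : ℝ) = P * (r + 1) ^ e * (10 * (k + 2) * (r + 1)) := by
        rw [hp]
        push_cast
        ring
      have hk0 : (0 : ℝ) ≤ k := Nat.cast_nonneg k
      have hr0' : (0 : ℝ) ≤ r := Nat.cast_nonneg r
      have h3 : (k : ℝ) * p ≤ k * 4 ^ r := by
        apply mul_le_mul_of_nonneg_left _ hk0
        linarith
      have h4' : (10 * ((k : ℝ) + 2) * (r + 1)) * 4 ^ r ≤ (n + k) * p := by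
        rw [h2]
        have h5 : (0 : ℝ) ≤ 10 * ((k : ℝ) + 2) * (r + 1) := by positivity
        calc (10 * ((k : ℝ) + 2) * (r + 1)) * 4 ^ r
            ≤ (10 * ((k : ℝ) + 2) * (r + 1)) * (P * (r + 1) ^ e * (n + k)) :=
              mul_le_mul_of_nonneg_left hn' h5
          _ = (n + k) * (P * (r + 1) ^ e * (10 * (k + 2) * (r + 1))) := by ring
      nlinarith
    have hC : (2 : ℝ) ^ (3 * r + 1) ≤ Real.exp (3 * r + 1) := by
      have h1 : (2 : ℝ) ≤ Real.exp 1 := by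
        have := Real.add_one_le_exp (1 : ℝ)
        linarith
      calc (2 : ℝ) ^ (3 * r + 1) ≤ (Real.exp 1) ^ (3 * r + 1) :=
            pow_le_pow_left₀ (by norm_num) h1 _
        _ = Real.exp (3 * r + 1) := by
          rw [← Real.exp_nat_mul]
          push_cast
          congr 1
          ring
    have hC2 : (2 : ℝ) ^ (3 * r + 1) + 1 ≤ Real.exp (3 * r + 2) := by
      have h1 : (2 : ℝ) ≤ Real.exp 1 := by
        have := Real.add_one_le_exp (1 : ℝ)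
        linarith
      have h2 : (1 : ℝ) ≤ (2 : ℝ) ^ (3 * r + 1) := one_le_pow₀ (by norm_num)
      calc (2 : ℝ) ^ (3 * r + 1) + 1 ≤ 2 ^ (3 * r + 1) * 2 := by linarith
        _ ≤ Real.exp (3 * r + 1) * Real.exp 1 := by gcongr
        _ = Real.exp (3 * r + 2) := by
          rw [← Real.exp_add]
          congr 1
          ring
    have hD' : ((2 : ℝ) ^ (3 * r + 1)) ^ 2 ≤ Real.exp (2 * (3 * r + 1)) := by
      calc ((2 : ℝ) ^ (3 * r + 1)) ^ 2 ≤ (Real.exp (3 * r + 1)) ^ 2 :=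
            pow_le_pow_left₀ (by positivity) hC 2
        _ = Real.exp (2 * (3 * r + 1)) := by
          rw [← Real.exp_nat_mul]
          push_cast
          rfl
    have hE : ((2 : ℝ) ^ (3 * r + 1) + 1) ^ k ≤ Real.exp (k * (3 * r + 2)) := by
      calc ((2 : ℝ) ^ (3 * r + 1) + 1) ^ k ≤ (Real.exp (3 * r + 2)) ^ k :=
            pow_le_pow_left₀ (by positivity) hC2 k
        _ = Real.exp (k * (3 * r + 2)) := by
          rw [← Real.exp_nat_mul]
    have hF : (1 - 1 / (M : ℝ)) ^ n ≤ Real.exp (-((10 * ((k : ℝ) + 2) * (r + 1)) - k)) :=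
      hA.trans (Real.exp_le_exp.mpr (by linarith))
    have hG : 0 ≤ (1 - 1 / (M : ℝ)) ^ n := by
      apply pow_nonneg
      have : 1 / (M : ℝ) ≤ 1 := by
        rw [div_le_one hMpos]
        exact_mod_cast hMp
      linarith
    calc ((2 : ℝ) ^ (3 * r + 1)) ^ 2 * ((2 : ℝ) ^ (3 * r + 1) + 1) ^ k * (1 - 1 / (M : ℝ)) ^ n
        ≤ Real.exp (2 * (3 * r + 1)) * Real.exp (k * (3 * r + 2)) *
            Real.exp (-((10 * ((k : ℝ) + 2) * (r + 1)) - k)) := by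
          gcongr
      _ = Real.exp (2 * (3 * r + 1) + k * (3 * r + 2) + -((10 * ((k : ℝ) + 2) * (r + 1)) - k)) := by
          rw [← Real.exp_add, ← Real.exp_add]
      _ ≤ Real.exp (-3) := by
          apply Real.exp_le_exp.mpr
          have hk0 : (0 : ℝ) ≤ k := Nat.cast_nonneg k
          have hr0' : (0 : ℝ) ≤ r := Nat.cast_nonneg r
          nlinarith [mul_nonneg hk0 hr0']
      _ ≤ 1 / 4 := by
          have h1 := Real.add_one_le_exp (3 : ℝ)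
          rw [Real.exp_neg, ← one_div]
          apply one_div_le_one_div_of_le <;> linarith
  · have h1 : (1 / (M : ℝ)) ^ 2 ≤ (c * (3 * (r : ℝ) + 2) ^ D / 4 ^ r) ^ 2 :=
      pow_le_pow_left₀ (by positivity) hMinv 2
    calc (2 : ℝ) ^ (3 * r + 1) * (3 * r + 2) ^ (2 * C) * (1 / (M : ℝ)) ^ 2
        ≤ (2 : ℝ) ^ (3 * r + 1) * (3 * r + 2) ^ (2 * C) * (c * (3 * (r : ℝ) + 2) ^ D / 4 ^ r) ^ 2 := by
          gcongr
      _ = (2 * c ^ 2) * ((3 * (r : ℝ) + 2) ^ (2 * C + 2 * D) * (1 / 2) ^ r) := by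
          have e1 : (2 : ℝ) ^ (3 * r + 1) = 2 * 8 ^ r := by
            rw [pow_succ, pow_mul]
            norm_num
            ring
          have e2 : (1 / 2 : ℝ) ^ r = 8 ^ r / (4 ^ r) ^ 2 := by
            rw [← pow_mul, mul_comm r 2, pow_mul, ← div_pow]
            norm_num
          rw [e1, e2, pow_add, div_pow, mul_pow, ← pow_mul, mul_comm D 2]
          ring
      _ ≤ 1 / 4 := hr2
  · refine le_trans (Finset.sum_le_sum fun j hj => ?_) hr3
    have hj1 : 1 ≤ j := (Finset.mem_Icc.mp hj).1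
    have h1 : (1 / (M : ℝ)) ^ (j + 3) ≤ (c * (3 * (r : ℝ) + 2) ^ D / 4 ^ r) ^ (j + 3) :=
      pow_le_pow_left₀ (by positivity) hMinv _
    calc (2 : ℝ) ^ (3 * r + 1) * 3 ^ (3 * r + 1) * 4 ^ (r * (j - 1)) *
          (3 * r + 2) ^ (C * j + 2 * C) * 2 ^ (2 ^ j) * (1 / (M : ℝ)) ^ (j + 3)
        ≤ (2 : ℝ) ^ (3 * r + 1) * 3 ^ (3 * r + 1) * 4 ^ (r * (j - 1)) *
          (3 * r + 2) ^ (C * j + 2 * C) * 2 ^ (2 ^ j) *
            (c * (3 * (r : ℝ) + 2) ^ D / 4 ^ r) ^ (j + 3) := by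
          gcongr
      _ = (6 * 2 ^ (2 ^ j) * c ^ (j + 3)) *
        ((3 * (r : ℝ) + 2) ^ (C * j + 2 * C + D * (j + 3)) * (216 / 256) ^ r) := by
          have e1 : (2 : ℝ) ^ (3 * r + 1) * 3 ^ (3 * r + 1) = 6 * 216 ^ r := by
            rw [← mul_pow, pow_succ, pow_mul]
            norm_num
            ring
          have e2 : (216 / 256 : ℝ) ^ r * (4 ^ r) ^ (j + 3) = 216 ^ r * 4 ^ (r * (j - 1)) := by
            have : (4 : ℝ) ^ (r * (j - 1)) * 256 ^ r = (4 ^ r) ^ (j + 3) := by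
              have h256 : (256 : ℝ) = 4 ^ 4 := by norm_num
              rw [h256, ← pow_mul, ← pow_mul, ← pow_add]
              congr 1
              obtain ⟨i, rfl⟩ : ∃ i, j = i + 1 := ⟨j - 1, by omega⟩
              simp only [Nat.add_sub_cancel]
              ring
            rw [← this, div_pow]
            field_simp
          have e3 : (216 / 256 : ℝ) ^ r = 216 ^ r * 4 ^ (r * (j - 1)) / (4 ^ r) ^ (j + 3) := by
            rw [eq_div_iff (by positivity)]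
            exact e2
          rw [e1, e3, pow_add _ (C * j + 2 * C), div_pow, mul_pow c, ← pow_mul _ D]
          ring

end Pool.Agent.Hen
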