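import Mathlib

/-!
# MODULE Binom (easy/medium)
`choose_off`: `4^a ≤ (2a+1) C(2a,a)` (the central coefficient is the largest of the `2a+1` ones that sum up
to `4^a`: `Nat.sum_range_choose`, `Nat.choose_le_middle`, or `Nat.four_pow_le_two_mul_self_mul_centralBinom`).
`C(2a, a+s+1) (a+s+1) = C(2a, a+s) (a-s)` and `3 (a-s) ≥ a+s+1` for `s < t`, `2t ≤ a`; so
`C(2a,a+t) 3^t ≥ C(2a,a)`. For negative `t` use `C(2a,a-t) = C(2a,a+t)` (`Nat.choose_symm_of_eq_add`).
`split`: induction on `T`.
-/

set_option autoImplicit false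

open Finset

namespace Pool.Agent.Hen

private theorem Binom_central (a : ℕ) : 4 ^ a ≤ (2 * a + 1) * (2 * a).choose a := by
  have h : 4 ^ a = ∑ i ∈ range (2 * a + 1), (2 * a).choose i := by
    rw [Nat.sum_range_choose, pow_mul]
    norm_num
  rw [h]
  calc _ ≤ ∑ _i ∈ range (2 * a + 1), (2 * a).choose a := by
        apply sum_le_sum
        intro i _
        have := Nat.choose_le_middle i (2 * a)
        simpa using this
    _ = (2 * a + 1) * (2 * a).choose a := by simp

private theorem Binom_step (a t : ℕ) (ht : 2 * t ≤ a) :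
    (2 * a).choose a ≤ 3 ^ t * (2 * a).choose (a + t) := by
  induction t with
  | zero => simp
  | succ s ih =>
    have h1 := ih (by omega)
    have h2 : (2 * a).choose (a + s + 1) * (a + s + 1) = (2 * a).choose (a + s) * (a - s) := by
      have := Nat.choose_succ_right_eq (2 * a) (a + s)
      rw [this]
      congr 1
      omega
    have h3 : (a + s + 1) ≤ 3 * (a - s) := by omega
    have h4 : (2 * a).choose (a + s) ≤ 3 * (2 * a).choose (a + s + 1) := by
      by_contra hc
      push Not at hc
      have h5 : 3 * (2 * a).choose (a + s + 1) * (a - s) < (2 * a).choose (a + s) * (a - s) :=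
        Nat.mul_lt_mul_of_pos_right hc (by omega)
      have h6 : (2 * a).choose (a + s + 1) * (a + s + 1) ≤
          (2 * a).choose (a + s + 1) * (3 * (a - s)) := Nat.mul_le_mul_left _ h3
      have h7 : (2 * a).choose (a + s + 1) * (3 * (a - s)) =
          3 * (2 * a).choose (a + s + 1) * (a - s) := by ring
      omega
    calc (2 * a).choose a ≤ 3 ^ s * (2 * a).choose (a + s) := h1
      _ ≤ 3 ^ s * (3 * (2 * a).choose (a + s + 1)) := Nat.mul_le_mul_left _ h4
      _ = 3 ^ (s + 1) * (2 * a).choose (a + (s + 1)) := by rw [pow_succ, ← add_assoc]; ring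

theorem choose_off (a n : ℕ) (t : ℤ) (ht : 2 * t.natAbs ≤ a) (hn : (n : ℤ) = a + t) :
    4 ^ a ≤ (2 * a + 1) * 3 ^ t.natAbs * (2 * a).choose n := by
  have h0 := Binom_central a
  have h1 := Binom_step a t.natAbs ht
  have h2 : (2 * a).choose n = (2 * a).choose (a + t.natAbs) := by
    rcases le_total 0 t with h | h
    · congr 1
      omega
    · apply Nat.choose_symm_of_eq_add
      omega
  rw [h2]
  calc 4 ^ a ≤ (2 * a + 1) * (2 * a).choose a := h0
    _ ≤ (2 * a + 1) * (3 ^ t.natAbs * (2 * a).choose (a + t.natAbs)) := Nat.mul_le_mul_left _ h1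
    _ = _ := by ring

theorem split {R : Type*} [DecidableEq R] (T : Finset R) (b : R → ℕ) (e : ℕ)
    (h : e ≤ ∑ i ∈ T, b i) : ∃ f : R → ℕ, (∀ i, f i ≤ b i) ∧ ∑ i ∈ T, f i = e := by
  induction T using Finset.induction_on generalizing e with
  | empty =>
    refine ⟨fun _ => 0, fun _ => Nat.zero_le _, ?_⟩
    simp at h ⊢
    omega
  | insert x T hx ih =>
    rw [sum_insert hx] at h
    obtain ⟨f, hf, hs⟩ := ih (e - min e (b x)) (by omega)
    refine ⟨fun i => if i = x then min e (b x) else f i, ?_, ?_⟩
    · intro i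
      dsimp only
      split_ifs with hi
      · subst hi; exact min_le_right _ _
      · exact hf i
    · rw [sum_insert hx]
      have : ∑ i ∈ T, (if i = x then min e (b x) else f i) = ∑ i ∈ T, f i := by
        apply sum_congr rfl
        intro i hi
        rw [if_neg]
        rintro rfl
        exact hx hi
      rw [this, hs]
      simp only [if_true]
      omega

end Pool.Agent.Hen
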