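import Mathlib

/-!
# Squad HEN (MP_e04924_lc): definitions
Points are finsets of `Fin (3 * r + 1)` (the cube), the distance is `(symmDiff x y).card`; in the ambient graph two
points are adjacent if their distance is at least `2 * r + 1`.
-/

set_option autoImplicit false

open Finset

namespace Pool.Agent.Hen

/-- the coordinates `c` of `S` for which `{v ∈ V : c ∈ u v}` is exactly `ρ` -/
def atom {α ι : Type*} [DecidableEq α] [DecidableEq ι] (S : Finset α) (V : Finset ι)
    (u : ι → Finset α) (ρ : Finset ι) : Finset α :=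
  S.filter fun c => V.filter (fun v => c ∈ u v) = ρ

/-- the coordinates `c` of `S` for which `{v ∈ O : c ∈ u v}` belongs to `F` -/
def patt {α ι : Type*} [DecidableEq α] [DecidableEq ι] (S : Finset α) (O : Finset ι)
    (u : ι → Finset α) (F : Finset (Finset ι)) : Finset α :=
  S.filter fun c => O.filter (fun v => c ∈ u v) ∈ F

/-- bad configurations `(x, y, O, v)`: the coordinates of `v` relative to `x` are, up to a bounded
number of errors, a Boolean function of the coordinates of the points of `O` -/
def Bad (r C j : ℕ) (x y : Finset (Fin (3 * r + 1))) (O : Finset (Finset (Fin (3 * r + 1))))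
    (v : Finset (Fin (3 * r + 1))) : Prop :=
  x ≠ y ∧ x ∉ O ∧ y ∉ O ∧ v ∉ O ∧ v ≠ x ∧ v ≠ y ∧ O.card = j ∧
    (symmDiff x y).card ≤ 2 * r ∧
    (∀ a ∈ O, (symmDiff a x \ symmDiff x y).card < C) ∧
    ∃ F : Finset (Finset (Finset (Fin (3 * r + 1)))), F ⊆ O.powerset ∧
      (symmDiff (symmDiff v x) (patt (symmDiff x y) O (fun a => symmDiff a x) F)).card < 2 * C

end Pool.Agent.Hen
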