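import Mathlib
import Pool.Agent.Hen.Defs
import Pool.Agent.Hen.Binom

/-!
# MODULE CoreE (medium)
For `v ∈ V` let `Z v = ∅` if `u v \ S` has fewer than `C` elements, and a `C`-element subset of it otherwise;
`Z = ⋃ Z v`, `|Z| ≤ k C`, `T = univ \ S \ Z`. The atoms of `T` (over `V`) are disjoint with union `T`; `b ρ = |atom T V u ρ| / 2`,
`2 ∑ b ρ ≥ |T| - 2^k ≥ 3r + 1 - |S| - kC - 2^k ≥ 2 (r - (|S|+1)/2)`. `split` gives `e ρ ≤ b ρ` with the right sum
(put `e = 0`, `E = ∅` outside `V.powerset`), `E ρ ⊆ atom T V u ρ` with `2 e ρ` elements.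
If `C ≤ |u v \ S|` then `Z v ⊆ u v \ S` is disjoint from all `E ρ ⊆ T`. (`atom T V u ρ ⊆ atom (univ \ S) V u ρ` by definition.)
-/

set_option autoImplicit false

open Finset

namespace Pool.Agent.Hen

theorem coreE {ι : Type*} [DecidableEq ι] (k r C : ℕ) (S : Finset (Fin (3 * r + 1)))
    (V : Finset ι) (u : ι → Finset (Fin (3 * r + 1))) (hS : S.card ≤ 2 * r) (hV : V.card ≤ k)
    (hr : k * C + 2 ^ k ≤ r) :
    ∃ (E : Finset ι → Finset (Fin (3 * r + 1))) (e : Finset ι → ℕ),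
      (∀ ρ ∈ V.powerset, E ρ ⊆ atom (univ \ S) V u ρ) ∧
      (∀ ρ ∈ V.powerset, (E ρ).card = 2 * e ρ) ∧
      ∑ ρ ∈ V.powerset, e ρ = r - (S.card + 1) / 2 ∧
      ∀ v ∈ V, C ≤ (u v \ S).card → C ≤ ((u v \ S) \ V.powerset.biUnion E).card := by
  classical
  have hZ : ∀ v : ι, ∃ Z : Finset (Fin (3 * r + 1)), Z ⊆ u v \ S ∧ Z.card ≤ C ∧
      (C ≤ (u v \ S).card → Z.card = C) := by
    intro v
    by_cases h : C ≤ (u v \ S).card
    · obtain ⟨Z, hZ1, hZ2⟩ := Finset.exists_subset_card_eq h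
      exact ⟨Z, hZ1, hZ2.le, fun _ => hZ2⟩
    · exact ⟨∅, by simp, by simp, fun h' => absurd h' h⟩
  choose Z hZ1 hZ2 hZ3 using hZ
  set ZZ := V.biUnion Z with hZZ
  have hZZc : ZZ.card ≤ k * C := by
    calc ZZ.card ≤ ∑ v ∈ V, (Z v).card := card_biUnion_le
      _ ≤ ∑ _v ∈ V, C := sum_le_sum fun v _ => hZ2 v
      _ = V.card * C := by simp
      _ ≤ k * C := Nat.mul_le_mul_right _ hV
  set T := (univ \ S) \ ZZ with hT
  have hTc : 3 * r + 1 ≤ T.card + S.card + k * C := by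
    have h1 : (univ \ S : Finset (Fin (3 * r + 1))).card = 3 * r + 1 - S.card := by
      rw [card_sdiff_of_subset (subset_univ S)]; simp
    have h2 : (univ \ S : Finset (Fin (3 * r + 1))).card ≤ T.card + ZZ.card := by
      calc (univ \ S : Finset (Fin (3 * r + 1))).card
          ≤ (T ∪ ZZ).card := card_le_card (by
            intro x hx
            by_cases hz : x ∈ ZZ
            · exact mem_union_right _ hz
            · exact mem_union_left _ (mem_sdiff.2 ⟨hx, hz⟩))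
        _ ≤ T.card + ZZ.card := card_union_le _ _
    omega
  have hsum : ∑ ρ ∈ V.powerset, (atom T V u ρ).card = T.card := by
    symm
    have := card_eq_sum_card_fiberwise (s := T) (t := V.powerset)
      (f := fun c => V.filter (fun v => c ∈ u v)) (by
        intro c _
        exact mem_coe.2 (mem_powerset.2 (filter_subset _ _)))
    rw [this]
    rfl
  have hb : T.card ≤ 2 * ∑ ρ ∈ V.powerset, (atom T V u ρ).card / 2 + 2 ^ k := by
    have h1 : T.card ≤ ∑ ρ ∈ V.powerset, (2 * ((atom T V u ρ).card / 2) + 1) := by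
      rw [← hsum]
      exact sum_le_sum fun ρ _ => by omega
    rw [sum_add_distrib, ← mul_sum] at h1
    have h2 : ∑ _ρ ∈ V.powerset, 1 ≤ 2 ^ k := by
      rw [sum_const, card_powerset, smul_eq_mul, mul_one]
      exact Nat.pow_le_pow_right (by norm_num) hV
    omega
  obtain ⟨f, hf1, hf2⟩ := split V.powerset (fun ρ => (atom T V u ρ).card / 2)
    (r - (S.card + 1) / 2) (by omega)
  have hE : ∀ ρ : Finset ι, ∃ E : Finset (Fin (3 * r + 1)), E ⊆ atom T V u ρ ∧
      E.card = 2 * f ρ := by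
    intro ρ
    exact Finset.exists_subset_card_eq (by have := hf1 ρ; omega)
  choose E hE1 hE2 using hE
  refine ⟨E, f, ?_, fun ρ _ => hE2 ρ, hf2, ?_⟩
  · intro ρ _ c hc
    have := hE1 ρ hc
    simp only [atom, mem_filter] at this ⊢
    exact ⟨(mem_sdiff.1 this.1).1, this.2⟩
  · intro v hv hC
    rw [← hZ3 v hC]
    apply card_le_card
    intro c hc
    rw [mem_sdiff]
    refine ⟨hZ1 v hc, ?_⟩
    rw [mem_biUnion]
    rintro ⟨ρ, _, hρ⟩
    have := hE1 ρ hρ
    simp only [atom, mem_filter] at this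
    exact (mem_sdiff.1 this.1).2 (mem_biUnion.2 ⟨v, hv, hc⟩)

end Pool.Agent.Hen
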