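import Mathlib
import Pool.Agent.Hen.Binom

/-!
# MODULE CoreProd (easy)
Multiply `choose_off (a ρ) (n ρ) (off ρ)` and `choose_off (e ρ) (e ρ) 0` over `ρ ∈ R`;
`2 a ρ + 1 ≤ L`, `2 e ρ + 1 ≤ L`, `|off ρ| ≤ B`, `R.card ≤ N`, `1 ≤ L` (if `R` is empty both sides are trivial).
-/

set_option autoImplicit false

open Finset

namespace Pool.Agent.Hen

theorem prod_bound {ρ' : Type*} [DecidableEq ρ'] (R : Finset ρ') (N L B : ℕ) (hR : R.card ≤ N)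
    (hL : 1 ≤ L) (a n e : ρ' → ℕ) (off : ρ' → ℤ)
    (ha : ∀ ρ ∈ R, 2 * a ρ + 1 ≤ L) (he : ∀ ρ ∈ R, 2 * e ρ + 1 ≤ L)
    (ho : ∀ ρ ∈ R, 2 * (off ρ).natAbs ≤ a ρ ∧ (n ρ : ℤ) = a ρ + off ρ ∧ (off ρ).natAbs ≤ B) :
    4 ^ (∑ ρ ∈ R, a ρ + ∑ ρ ∈ R, e ρ) ≤
      L ^ (2 * N) * 3 ^ (N * B) *
        ((∏ ρ ∈ R, (2 * a ρ).choose (n ρ)) * ∏ ρ ∈ R, (2 * e ρ).choose (e ρ)) := by
  have h1 : ∀ ρ ∈ R, 4 ^ (a ρ + e ρ) ≤
      (L ^ 2 * 3 ^ B) * ((2 * a ρ).choose (n ρ) * (2 * e ρ).choose (e ρ)) := by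
    intro ρ hρ
    obtain ⟨h1, h2, h3⟩ := ho ρ hρ
    have h4 := choose_off (a ρ) (n ρ) (off ρ) h1 h2
    have h5 := choose_off (e ρ) (e ρ) 0 (by simp) (by simp)
    simp only [Int.natAbs_zero, pow_zero, mul_one] at h5
    rw [pow_add]
    calc 4 ^ a ρ * 4 ^ e ρ
        ≤ ((2 * a ρ + 1) * 3 ^ (off ρ).natAbs * (2 * a ρ).choose (n ρ)) *
          ((2 * e ρ + 1) * (2 * e ρ).choose (e ρ)) := Nat.mul_le_mul h4 h5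
      _ ≤ (L * 3 ^ B * (2 * a ρ).choose (n ρ)) * (L * (2 * e ρ).choose (e ρ)) := by
          apply Nat.mul_le_mul
          · apply Nat.mul_le_mul_right
            exact Nat.mul_le_mul (ha ρ hρ) (Nat.pow_le_pow_right (by norm_num) h3)
          · exact Nat.mul_le_mul_right _ (he ρ hρ)
      _ = _ := by ring
  have h2 : 4 ^ (∑ ρ ∈ R, a ρ + ∑ ρ ∈ R, e ρ) = ∏ ρ ∈ R, 4 ^ (a ρ + e ρ) := by
    rw [Finset.prod_pow_eq_pow_sum, Finset.sum_add_distrib]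
  rw [h2]
  calc ∏ ρ ∈ R, 4 ^ (a ρ + e ρ)
      ≤ ∏ ρ ∈ R, (L ^ 2 * 3 ^ B) * ((2 * a ρ).choose (n ρ) * (2 * e ρ).choose (e ρ)) :=
        Finset.prod_le_prod' h1
    _ = (L ^ 2 * 3 ^ B) ^ R.card *
        ((∏ ρ ∈ R, (2 * a ρ).choose (n ρ)) * ∏ ρ ∈ R, (2 * e ρ).choose (e ρ)) := by
        rw [Finset.prod_mul_distrib, Finset.prod_const, Finset.prod_mul_distrib]
    _ ≤ (L ^ 2 * 3 ^ B) ^ N *
        ((∏ ρ ∈ R, (2 * a ρ).choose (n ρ)) * ∏ ρ ∈ R, (2 * e ρ).choose (e ρ)) := by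
        apply Nat.mul_le_mul_right
        exact Nat.pow_le_pow_right (by positivity) hR
    _ = _ := by
        rw [mul_pow, ← pow_mul, ← pow_mul, Nat.mul_comm B N]

end Pool.Agent.Hen
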