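import Mathlib

/-!
# MODULE Offs (easy)
`off ρ = ∑ v ∈ Va, K * ([ρ = pm v] - [ρ = pp v])`. (1), (2) clear. (3) exchange the sums. (4), (5): exchange
the sums; for `v` the inner sum is `K ([a ∈ pm v] - [a ∈ pp v])`, which is `-K` for `v = a`, `0` for
the other `v` if `a ∈ Va`, and at most `K` in general.
-/

set_option autoImplicit false

open Finset

namespace Pool.Agent.Hen

theorem offs {ι : Type*} [DecidableEq ι] (Va : Finset ι) (pm pp : ι → Finset ι) (K : ℕ)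
    (P : Finset (Finset ι)) (hpm : ∀ v ∈ Va, pm v ∈ P) (hpp : ∀ v ∈ Va, pp v ∈ P)
    (h1 : ∀ v ∈ Va, v ∉ pm v) (h2 : ∀ v ∈ Va, v ∈ pp v)
    (h3 : ∀ v ∈ Va, ∀ a ∈ Va, a ≠ v → (a ∈ pm v ↔ a ∈ pp v)) :
    ∃ off : Finset ι → ℤ, (∀ ρ, |off ρ| ≤ K * Va.card) ∧
      (∀ ρ, off ρ ≠ 0 → ∃ v ∈ Va, ρ = pm v ∨ ρ = pp v) ∧
      ∑ ρ ∈ P, off ρ = 0 ∧
      (∀ a ∈ Va, ∑ ρ ∈ P.filter (fun ρ => a ∈ ρ), off ρ = -K) ∧
      ∀ a, ∑ ρ ∈ P.filter (fun ρ => a ∈ ρ), off ρ ≤ K * Va.card := by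
  have key : ∀ a, ∑ ρ ∈ P.filter (fun ρ => a ∈ ρ),
      (∑ v ∈ Va, ((if ρ = pm v then (K : ℤ) else 0) - (if ρ = pp v then (K : ℤ) else 0)))
      = ∑ v ∈ Va, ((if a ∈ pm v then (K : ℤ) else 0) - (if a ∈ pp v then (K : ℤ) else 0)) := by
    intro a
    rw [Finset.sum_comm]
    refine Finset.sum_congr rfl fun v hv => ?_
    rw [Finset.sum_sub_distrib, Finset.sum_ite_eq', Finset.sum_ite_eq']
    simp [Finset.mem_filter, hpm v hv, hpp v hv]
  refine ⟨fun ρ => ∑ v ∈ Va, ((if ρ = pm v then (K : ℤ) else 0) - (if ρ = pp v then (K : ℤ) else 0)),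
    ?_, ?_, ?_, ?_, ?_⟩
  · intro ρ
    calc |∑ v ∈ Va, ((if ρ = pm v then (K : ℤ) else 0) - (if ρ = pp v then (K : ℤ) else 0))|
        ≤ ∑ v ∈ Va, |((if ρ = pm v then (K : ℤ) else 0) - (if ρ = pp v then (K : ℤ) else 0))| :=
          Finset.abs_sum_le_sum_abs _ _
      _ ≤ ∑ _v ∈ Va, (K : ℤ) := by
          refine Finset.sum_le_sum fun v _ => ?_
          have hK : (0 : ℤ) ≤ K := Int.natCast_nonneg K
          split_ifs <;> simp
      _ = K * Va.card := by rw [Finset.sum_const, nsmul_eq_mul]; ring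
  · intro ρ hρ
    by_contra hcon
    apply hρ
    refine Finset.sum_eq_zero fun v hv => ?_
    have hn : ¬ (ρ = pm v ∨ ρ = pp v) := fun h => hcon ⟨v, hv, h⟩
    rw [if_neg (fun h => hn (Or.inl h)), if_neg (fun h => hn (Or.inr h)), sub_zero]
  · rw [Finset.sum_comm]
    refine Finset.sum_eq_zero fun v hv => ?_
    rw [Finset.sum_sub_distrib, Finset.sum_ite_eq', Finset.sum_ite_eq']
    simp [hpm v hv, hpp v hv]
  · intro a ha
    beta_reduce
    rw [key a, Finset.sum_eq_single a]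
    · simp [h1 a ha, h2 a ha]
    · intro v hv hne
      have := h3 v hv a ha (Ne.symm hne)
      by_cases hh : a ∈ pm v
      · simp [hh, this.1 hh]
      · have h' : a ∉ pp v := fun h => hh (this.2 h)
        simp [hh, h']
    · intro h
      exact absurd ha h
  · intro a
    beta_reduce
    rw [key a]
    calc ∑ v ∈ Va, ((if a ∈ pm v then (K : ℤ) else 0) - (if a ∈ pp v then (K : ℤ) else 0))
        ≤ ∑ _v ∈ Va, (K : ℤ) := by
          refine Finset.sum_le_sum fun v _ => ?_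
          have hK : (0 : ℤ) ≤ K := Int.natCast_nonneg K
          split_ifs <;> simp
      _ = K * Va.card := by rw [Finset.sum_const, nsmul_eq_mul]; ring

end Pool.Agent.Hen
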