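import Mathlib
import Pool.Agent.Hen.Defs

/-!
# MODULE Types (medium)
Let `O = Va.erase v`. For `τ ⊆ O` let `a0 τ`, `a1 τ` be the number of `c ∈ S` with
`O.filter (c ∈ u ·) = τ` and `c ∉ u v`, resp. `c ∈ u v`. Apply `h` to `F = {τ ⊆ O : a0 τ ≤ a1 τ}`:
`((u v ∩ S) ∆ patt S O u F).card = ∑_τ min (a0 τ) (a1 τ)` (`≤` is enough). There are at most `2^(k-1)` sets `τ` (`v ∈ Va ⊆ V`,
`V.card ≤ k`), so some `min ≥ 2^k C₁` (otherwise the sum is `< 2^(k-1) 2^k C₁ ≤ 4^k C₁`, as `C₁ ≥ 1`).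
The `a0 τ` coordinates have at most `2^k` types over `V`, so one atom `atom S V u pm` contains at least `C₁` of them, and every
coordinate with this type has `O`-type `τ` and is not in `u v`: `v ∉ pm` and `a ∈ pm ↔ a ∈ τ` for `a ∈ O`.
The same for `a1` and `pp`.
-/

set_option autoImplicit false

open Finset

namespace Pool.Agent.Hen

theorem Types_pigeon {α ι : Type*} [DecidableEq α] [DecidableEq ι] (S : Finset α) (V : Finset ι)
    (u : ι → Finset α) (k C₁ : ℕ) (hV : V.card ≤ k) (A : Finset α) (hA : A ⊆ S)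
    (hc : 2 ^ k * C₁ ≤ A.card) :
    ∃ ρ : Finset ι, ρ ⊆ V ∧ C₁ ≤ (A ∩ atom S V u ρ).card := by
  classical
  have h2 : V.powerset.card * C₁ ≤ A.card := by
    rw [card_powerset]
    exact le_trans (Nat.mul_le_mul_right _ (Nat.pow_le_pow_right (by norm_num) hV)) hc
  obtain ⟨ρ, hρ, hcard⟩ := Finset.exists_le_card_fiber_of_mul_le_card_of_maps_to
    (f := fun c => V.filter (fun v => c ∈ u v)) (s := A) (t := V.powerset)
    (fun a _ => mem_powerset.2 (filter_subset _ _)) ⟨∅, empty_mem_powerset _⟩ h2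
  refine ⟨ρ, mem_powerset.1 hρ, le_trans hcard (card_le_card ?_)⟩
  intro c hc
  rw [mem_filter] at hc
  exact mem_inter.2 ⟨hc.1, by unfold atom; exact mem_filter.2 ⟨hA hc.1, hc.2⟩⟩

theorem types {α ι : Type*} [DecidableEq α] [DecidableEq ι] (S : Finset α) (V Va : Finset ι)
    (u : ι → Finset α) (k C₁ : ℕ) (hC : 1 ≤ C₁) (hV : V.card ≤ k) (hVa : Va ⊆ V) (v : ι)
    (hv : v ∈ Va)
    (h : ∀ F : Finset (Finset ι),
      4 ^ k * C₁ ≤ (symmDiff (u v ∩ S) (patt S (Va.erase v) u F)).card) :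
    ∃ pm pp : Finset ι, pm ⊆ V ∧ pp ⊆ V ∧ v ∉ pm ∧ v ∈ pp ∧
      (∀ a ∈ Va, a ≠ v → (a ∈ pm ↔ a ∈ pp)) ∧
      C₁ ≤ (atom S V u pm).card ∧ C₁ ≤ (atom S V u pp).card := by
  classical
  set O := Va.erase v with hO
  set A0 : Finset ι → Finset α := fun τ =>
    S.filter fun c => O.filter (fun a => c ∈ u a) = τ ∧ c ∉ u v with hA0
  set A1 : Finset ι → Finset α := fun τ =>
    S.filter fun c => O.filter (fun a => c ∈ u a) = τ ∧ c ∈ u v with hA1
  set F : Finset (Finset ι) := O.powerset.filter fun τ => (A0 τ).card ≤ (A1 τ).card with hF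
  set M : Finset ι → Finset α := fun τ => if (A0 τ).card ≤ (A1 τ).card then A0 τ else A1 τ
    with hM
  have hsub : symmDiff (u v ∩ S) (patt S O u F) ⊆ O.powerset.biUnion M := by
    intro c hc
    rw [mem_biUnion]
    refine ⟨O.filter (fun a => c ∈ u a), mem_powerset.2 (filter_subset _ _), ?_⟩
    rw [Finset.mem_symmDiff] at hc
    simp only [hM, patt, mem_inter, mem_filter, hF, mem_powerset, filter_subset, true_and] at hc ⊢
    split_ifs with hle
    · simp only [hA0, mem_filter, true_and]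
      rcases hc with ⟨⟨h1, h2⟩, h3⟩ | ⟨⟨h1, h2⟩, h3⟩
      · exact absurd ⟨h2, hle⟩ h3
      · exact ⟨h1, fun h => h3 ⟨h, h1⟩⟩
    · simp only [hA1, mem_filter, true_and]
      rcases hc with ⟨⟨h1, h2⟩, h3⟩ | ⟨⟨h1, h2⟩, h3⟩
      · exact ⟨h2, h1⟩
      · exact absurd h2 hle
  have hOk : O.card ≤ k := le_trans (le_trans (card_le_card (erase_subset v Va))
    (card_le_card hVa)) hV
  obtain ⟨τ, hτ, hτc⟩ : ∃ τ ∈ O.powerset, 2 ^ k * C₁ ≤ (M τ).card := by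
    by_contra hcon
    push Not at hcon
    have h1 : (O.powerset.biUnion M).card ≤ ∑ τ ∈ O.powerset, (M τ).card := card_biUnion_le
    have h2 : ∑ τ ∈ O.powerset, (M τ).card < ∑ _τ ∈ O.powerset, 2 ^ k * C₁ :=
      Finset.sum_lt_sum_of_nonempty ⟨∅, empty_mem_powerset _⟩ hcon
    rw [sum_const, card_powerset, smul_eq_mul] at h2
    have h3 : 2 ^ O.card * (2 ^ k * C₁) ≤ 4 ^ k * C₁ := by
      have : (2:ℕ) ^ O.card ≤ 2 ^ k := Nat.pow_le_pow_right (by norm_num) hOk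
      calc 2 ^ O.card * (2 ^ k * C₁) ≤ 2 ^ k * (2 ^ k * C₁) := Nat.mul_le_mul_right _ this
        _ = 4 ^ k * C₁ := by
          rw [← mul_assoc, ← mul_pow]; norm_num
    have h4 := h F
    have h5 := card_le_card hsub
    omega
  have hM0 : 2 ^ k * C₁ ≤ (A0 τ).card ∧ 2 ^ k * C₁ ≤ (A1 τ).card := by
    simp only [hM] at hτc
    split_ifs at hτc with hle
    · exact ⟨hτc, le_trans hτc hle⟩
    · push Not at hle
      exact ⟨le_trans hτc hle.le, hτc⟩
  obtain ⟨pm, hpm, hpmc⟩ := Types_pigeon S V u k C₁ hV (A0 τ) (filter_subset _ _) hM0.1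
  obtain ⟨pp, hpp, hppc⟩ := Types_pigeon S V u k C₁ hV (A1 τ) (filter_subset _ _) hM0.2
  obtain ⟨c, hc⟩ : (A0 τ ∩ atom S V u pm).Nonempty := card_pos.1 (lt_of_lt_of_le hC hpmc)
  obtain ⟨d, hd⟩ : (A1 τ ∩ atom S V u pp).Nonempty := card_pos.1 (lt_of_lt_of_le hC hppc)
  simp only [hA0, atom, mem_inter, mem_filter] at hc
  simp only [hA1, atom, mem_inter, mem_filter] at hd
  obtain ⟨⟨-, hc1, hc2⟩, -, hc3⟩ := hc
  obtain ⟨⟨-, hd1, hd2⟩, -, hd3⟩ := hd
  refine ⟨pm, pp, hpm, hpp, ?_, ?_, ?_, le_trans hpmc (card_le_card inter_subset_right),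
    le_trans hppc (card_le_card inter_subset_right)⟩
  · rw [← hc3, mem_filter]
    exact fun h => hc2 h.2
  · rw [← hd3, mem_filter]
    exact ⟨hVa hv, hd2⟩
  · intro a ha hav
    have haO : a ∈ O := mem_erase.2 ⟨hav, ha⟩
    have e1 : a ∈ pm ↔ c ∈ u a := by
      rw [← hc3, mem_filter]; exact ⟨fun h => h.2, fun h => ⟨hVa ha, h⟩⟩
    have e2 : a ∈ pp ↔ d ∈ u a := by
      rw [← hd3, mem_filter]; exact ⟨fun h => h.2, fun h => ⟨hVa ha, h⟩⟩
    have e3 : a ∈ τ ↔ c ∈ u a := by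
      rw [← hc1, mem_filter]; exact ⟨fun h => h.2, fun h => ⟨haO, h⟩⟩
    have e4 : a ∈ τ ↔ d ∈ u a := by
      rw [← hd1, mem_filter]; exact ⟨fun h => h.2, fun h => ⟨haO, h⟩⟩
    rw [e1, e2, ← e3, ← e4]

end Pool.Agent.Hen
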