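import Mathlib
import Pool.Agent.Hen.Defs
import Pool.Agent.Hen.Offs
import Pool.Agent.Hen.Types

/-!
# MODULE CoreS (medium)
For `ρ ⊆ V` take `A ρ ⊆ atom S V u ρ` with `2 (|atom|/2)` elements (`Finset.exists_subset_card_eq`; `A ρ = ∅`, `off ρ = 0` outside
`V.powerset`). The atoms of `S` are disjoint with union `S` (the type of `c ∈ S` is `V.filter (c ∈ u ·) ∈ V.powerset`),
so `O = S \ ⋃ A ρ` has at most one element for every `ρ`, `|O| ≤ 2^|V| ≤ 2^k`. `types` gives `pm v`, `pp v` for `v ∈ Va`, `offs`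
(with `P = V.powerset`) gives `off`. If `off ρ ≠ 0` then `|atom| ≥ C₁ ≥ 4 k K + 1`, so `a = |atom|/2 ≥ 2 k K ≥ 2 |off ρ|`.
`n ρ = (a + off ρ).toNat`. (Replace `off` by `0` outside `V.powerset` if needed.)
-/

set_option autoImplicit false

open Finset

namespace Pool.Agent.Hen

theorem CoreS_card_le {α ι : Type*} [DecidableEq α] [DecidableEq ι] (k : ℕ) (S : Finset α)
    (V : Finset ι) (u : ι → Finset α) (hV : V.card ≤ k) (A : Finset ι → Finset α)
    (hA : ∀ ρ, A ρ ⊆ atom S V u ρ) (hAc : ∀ ρ, (A ρ).card = 2 * ((atom S V u ρ).card / 2)) :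
    (S \ V.powerset.biUnion A).card ≤ 2 ^ k := by
  have hinj : (S \ V.powerset.biUnion A).card ≤ V.powerset.card := by
    refine Finset.card_le_card_of_injOn (fun c => V.filter (fun v => c ∈ u v)) ?_ ?_
    · intro c _
      simp only [Finset.coe_powerset, Set.mem_preimage, Set.mem_powerset_iff, Finset.coe_subset]
      exact Finset.filter_subset _ _
    · intro c hc d hd hcd
      simp only [Finset.coe_sdiff, Set.mem_sdiff, Finset.mem_coe, Finset.mem_biUnion,
        Finset.mem_powerset, not_exists, not_and] at hc hd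
      simp only at hcd
      have hc2 := hc.2 _ (Finset.filter_subset (fun v => c ∈ u v) V)
      have hd2 := hd.2 _ (Finset.filter_subset (fun v => d ∈ u v) V)
      rw [← hcd] at hd2
      have hc3 : c ∈ atom S V u (V.filter (fun v => c ∈ u v)) := by
        simp [atom, hc.1]
      have hd3 : d ∈ atom S V u (V.filter (fun v => c ∈ u v)) := by
        simp only [atom, Finset.mem_filter]
        exact ⟨hd.1, hcd.symm⟩
      have hcard : (atom S V u (V.filter (fun v => c ∈ u v)) \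
          A (V.filter (fun v => c ∈ u v))).card ≤ 1 := by
        rw [Finset.card_sdiff_of_subset (hA _), hAc]
        omega
      rw [Finset.card_le_one] at hcard
      exact hcard c (Finset.mem_sdiff.2 ⟨hc3, hc2⟩) d (Finset.mem_sdiff.2 ⟨hd3, hd2⟩)
  calc (S \ V.powerset.biUnion A).card ≤ V.powerset.card := hinj
    _ = 2 ^ V.card := Finset.card_powerset V
    _ ≤ 2 ^ k := Nat.pow_le_pow_right (by norm_num) hV

theorem coreS {α ι : Type*} [DecidableEq α] [DecidableEq ι] (k K C₁ : ℕ) (S : Finset α)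
    (V Va : Finset ι) (u : ι → Finset α) (hV : V.card ≤ k) (hVa : Va ⊆ V)
    (hC : 4 * k * K + 1 ≤ C₁)
    (h : ∀ v ∈ Va, ∀ F : Finset (Finset ι),
      4 ^ k * C₁ ≤ (symmDiff (u v ∩ S) (patt S (Va.erase v) u F)).card) :
    ∃ (A : Finset ι → Finset α) (a n : Finset ι → ℕ) (off : Finset ι → ℤ) (O O' : Finset α),
      (∀ ρ ∈ V.powerset, A ρ ⊆ atom S V u ρ) ∧
      O = S \ V.powerset.biUnion A ∧ O' ⊆ O ∧ O.card ≤ 2 ^ k ∧ O'.card = (O.card + 1) / 2 ∧
      (∀ ρ ∈ V.powerset, (A ρ).card = 2 * a ρ ∧ 2 * (off ρ).natAbs ≤ a ρ ∧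
        (n ρ : ℤ) = a ρ + off ρ ∧ (off ρ).natAbs ≤ K * k) ∧
      ∑ ρ ∈ V.powerset, off ρ = 0 ∧
      (∀ v ∈ Va, ∑ ρ ∈ V.powerset.filter (fun ρ => v ∈ ρ), off ρ = -K) ∧
      ∀ v, ∑ ρ ∈ V.powerset.filter (fun ρ => v ∈ ρ), off ρ ≤ K * k := by
  have hC1 : 1 ≤ C₁ := by omega
  have hVak : Va.card ≤ k := (Finset.card_le_card hVa).trans hV
  have hKk : K * Va.card ≤ K * k := Nat.mul_le_mul_left _ hVak
  have hex : ∀ ρ : Finset ι, ∃ t ⊆ atom S V u ρ, t.card = 2 * ((atom S V u ρ).card / 2) := by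
    intro ρ
    exact Finset.exists_subset_card_eq (by omega)
  choose A hA hAc using hex
  have hty : ∀ v : ι, ∃ q : Finset ι × Finset ι, v ∈ Va → (q.1 ⊆ V ∧ q.2 ⊆ V ∧ v ∉ q.1 ∧
      v ∈ q.2 ∧ (∀ a ∈ Va, a ≠ v → (a ∈ q.1 ↔ a ∈ q.2)) ∧
      C₁ ≤ (atom S V u q.1).card ∧ C₁ ≤ (atom S V u q.2).card) := by
    intro v
    by_cases hv : v ∈ Va
    · obtain ⟨pm, pp, hq⟩ := types S V Va u k C₁ hC1 hV hVa v hv (h v hv)
      exact ⟨(pm, pp), fun _ => hq⟩
    · exact ⟨(∅, ∅), fun hv' => absurd hv' hv⟩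
  choose q hq using hty
  obtain ⟨off, ho1, ho2, ho3, ho4, ho5⟩ := offs Va (fun v => (q v).1) (fun v => (q v).2) K
    V.powerset (fun v hv => Finset.mem_powerset.2 (hq v hv).1)
    (fun v hv => Finset.mem_powerset.2 (hq v hv).2.1)
    (fun v hv => (hq v hv).2.2.1) (fun v hv => (hq v hv).2.2.2.1)
    (fun v hv => (hq v hv).2.2.2.2.1)
  have hOc := CoreS_card_le k S V u hV A hA hAc
  obtain ⟨O', hO', hO'c⟩ := Finset.exists_subset_card_eq
    (s := S \ V.powerset.biUnion A) (n := ((S \ V.powerset.biUnion A).card + 1) / 2) (by omega)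
  have hoff : ∀ ρ, (off ρ).natAbs ≤ K * k := by
    intro ρ
    have h1 := ho1 ρ
    have h2 : ((off ρ).natAbs : ℤ) ≤ ((K * Va.card : ℕ) : ℤ) := by
      rw [Int.natCast_natAbs]
      push_cast
      exact h1
    have h3 : (off ρ).natAbs ≤ K * Va.card := by exact_mod_cast h2
    exact h3.trans hKk
  have hbig : ∀ ρ, 2 * (off ρ).natAbs ≤ (atom S V u ρ).card / 2 := by
    intro ρ
    by_cases h0 : off ρ = 0
    · rw [h0]; simp
    · obtain ⟨v, hv, hρ⟩ := ho2 ρ h0
      have hcard : C₁ ≤ (atom S V u ρ).card := by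
        rcases hρ with hρ | hρ
        · rw [hρ]; exact (hq v hv).2.2.2.2.2.1
        · rw [hρ]; exact (hq v hv).2.2.2.2.2.2
      have h1 := hoff ρ
      have h2 : 4 * k * K + 1 ≤ (atom S V u ρ).card := hC.trans hcard
      have h3 : 4 * k * K = 4 * (K * k) := by ring
      rw [h3] at h2
      omega
  refine ⟨A, fun ρ => (atom S V u ρ).card / 2,
    fun ρ => (((atom S V u ρ).card / 2 : ℕ) + off ρ : ℤ).toNat, off,
    S \ V.powerset.biUnion A, O', fun ρ _ => hA ρ, rfl, hO', hOc, hO'c, ?_, ho3, ho4, ?_⟩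
  · intro ρ _
    refine ⟨hAc ρ, hbig ρ, ?_, hoff ρ⟩
    have h1 := hbig ρ
    have h2 : (0 : ℤ) ≤ (((atom S V u ρ).card / 2 : ℕ) : ℤ) + off ρ := by
      omega
    exact Int.toNat_of_nonneg h2
  · intro v
    refine (ho5 v).trans ?_
    exact_mod_cast hKk

end Pool.Agent.Hen
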