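import Mathlib
import Pool.Agent.Hen.Defs

/-!
# MODULE Tri (easy)
`symm_triangle`: every coordinate is in 0 or 2 of the three symmetric differences (write the cards as
sums of indicators over `univ`, or use `x ∆ z = (x ∆ y) ∆ (y ∆ z)` and
`(a ∆ b).card + 2 * (a ∩ b).card = a.card + b.card`, `(a ∪ b).card ≤ card α`).
`card_symmDiff`: cards of symmetric differences.
-/

set_option autoImplicit false

open Finset

namespace Pool.Agent.Hen

theorem card_symmDiff {α : Type*} [DecidableEq α] (a b : Finset α) :
    (symmDiff a b).card + 2 * (a ∩ b).card = a.card + b.card := by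
  have h1 : (symmDiff a b).card = (a \ b).card + (b \ a).card := by
    rw [show symmDiff a b = (a \ b) ∪ (b \ a) from rfl]
    exact card_union_of_disjoint disjoint_sdiff_sdiff
  have h2 := card_sdiff_add_card_inter a b
  have h3 := card_sdiff_add_card_inter b a
  rw [inter_comm b a] at h3
  omega

theorem symm_triangle {α : Type*} [Fintype α] [DecidableEq α] (x y z : Finset α) :
    (symmDiff x y).card + (symmDiff y z).card + (symmDiff x z).card ≤ 2 * Fintype.card α := by
  have key : ∀ s : Finset α, s.card = ∑ c : α, if c ∈ s then 1 else 0 := by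
    intro s
    simp
  rw [key (symmDiff x y), key (symmDiff y z), key (symmDiff x z), ← sum_add_distrib,
    ← sum_add_distrib]
  calc _ ≤ ∑ _c : α, 2 := by
        apply sum_le_sum
        intro c _
        simp only [mem_symmDiff]
        by_cases h1 : c ∈ x <;> by_cases h2 : c ∈ y <;> by_cases h3 : c ∈ z <;> simp [h1, h2, h3]
    _ = 2 * Fintype.card α := by simp [mul_comm]

end Pool.Agent.Hen
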