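import Mathlib
import Pool.Agent.Hen.Defs
import Pool.Agent.Hen.Tri

/-!
# MODULE CoreV (medium): every set with the prescribed intersections is a witness
Let `Q = V.powerset`, `M = m ∩ ⋃ A ρ`, etc. `m = O' ∪ ⋃ (m ∩ A ρ) ∪ ⋃ (m ∩ E ρ)` (disjoint union), so
`|m| = |O'| + ∑ n ρ + ∑ e ρ = |O'| + ∑ a ρ + r - (|S|+1)/2` (as `∑ off ρ = 0`), `|S| = |O| + 2 ∑ a ρ`, `|O'| = (|O|+1)/2`: `|m| = r`.
`|m ∩ S| = |O'| + ∑ n ρ = (|S|+1)/2`, so `|m ∆ S| = |m| + |S| - 2 |m ∩ S| ≤ r` (`card_symmDiff`).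
For `v ∈ V`: `A ρ` and `E ρ` are contained in `u v` if `v ∈ ρ` and disjoint from `u v` if not. So
`|m ∩ u v| = |O' ∩ u v| + ∑_{ρ ∋ v} n ρ + ∑_{ρ ∋ v} e ρ` and
`|u v| ≥ |O ∩ u v| + ∑_{ρ ∋ v} 2 a ρ + ∑_{ρ ∋ v} 2 e ρ + |(u v \ S) \ ⋃ E ρ|`. Hence
`2 |m ∩ u v| - |u v| ≤ |O' ∩ u v| + 2 ∑_{ρ ∋ v} off ρ - |(u v \ S) \ ⋃ E ρ| ≤ 2^k + 2 ∑_{ρ ∋ v} off ρ - |(u v \ S) \ ⋃ E ρ|`.
If `|u v \ S| < C` this is `≤ 2^k - 2K < 0`, otherwise `≤ 2^k + 2 K k - C < 0`. So `|m ∆ u v| = |m| + |u v| - 2|m ∩ u v| ≥ r + 1`.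
-/

set_option autoImplicit false

open Finset

namespace Pool.Agent.Hen

theorem coreV_mem {α ι : Type*} [DecidableEq α] [DecidableEq ι] {T : Finset α} {V : Finset ι}
    {u : ι → Finset α} {ρ : Finset ι} {c : α} (hc : c ∈ atom T V u ρ) {v : ι} (hv : v ∈ V) :
    c ∈ u v ↔ v ∈ ρ := by
  unfold atom at hc
  rw [Finset.mem_filter] at hc
  rw [← hc.2, Finset.mem_filter]
  exact ⟨fun h => ⟨hv, h⟩, fun h => h.2⟩

theorem coreV_disj {α ι : Type*} [DecidableEq α] [DecidableEq ι] {T T' : Finset α} {V : Finset ι}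
    {u : ι → Finset α} {ρ ρ' : Finset ι} (h : ρ ≠ ρ') {X Y : Finset α} (hX : X ⊆ atom T V u ρ)
    (hY : Y ⊆ atom T' V u ρ') : Disjoint X Y := by
  rw [Finset.disjoint_left]
  intro c hc hc'
  have h1 := hX hc
  have h2 := hY hc'
  unfold atom at h1 h2
  rw [Finset.mem_filter] at h1 h2
  exact h (h1.2.symm.trans h2.2)

theorem coreV_sum {α ι : Type*} [DecidableEq α] [DecidableEq ι] (T : Finset α) (V : Finset ι)
    (u : ι → Finset α) (F : Finset ι → Finset α) (hF : ∀ ρ ∈ V.powerset, F ρ ⊆ atom T V u ρ)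
    (X : Finset α) :
    (X ∩ V.powerset.biUnion F).card = ∑ ρ ∈ V.powerset, (X ∩ F ρ).card := by
  rw [Finset.inter_biUnion, Finset.card_biUnion]
  intro ρ hρ ρ' hρ' hne
  exact (coreV_disj hne (hF ρ hρ) (hF ρ' hρ')).mono (inter_subset_right) (inter_subset_right)

theorem coreV_sum_v {α ι : Type*} [DecidableEq α] [DecidableEq ι] (T : Finset α) (V : Finset ι)
    (u : ι → Finset α) (F : Finset ι → Finset α) (hF : ∀ ρ ∈ V.powerset, F ρ ⊆ atom T V u ρ)
    (X : Finset α) (v : ι) (hv : v ∈ V) :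
    ((X ∩ u v) ∩ V.powerset.biUnion F).card =
      ∑ ρ ∈ V.powerset.filter (fun ρ => v ∈ ρ), (X ∩ F ρ).card := by
  rw [coreV_sum T V u F hF, Finset.sum_filter]
  refine Finset.sum_congr rfl fun ρ hρ => ?_
  split_ifs with h
  · congr 1
    ext c
    simp only [Finset.mem_inter]
    constructor
    · rintro ⟨⟨h1, _⟩, h3⟩
      exact ⟨h1, h3⟩
    · rintro ⟨h1, h3⟩
      exact ⟨⟨h1, (coreV_mem (hF ρ hρ h3) hv).mpr h⟩, h3⟩
  · rw [Finset.card_eq_zero, Finset.eq_empty_iff_forall_notMem]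
    intro c hc
    simp only [Finset.mem_inter] at hc
    exact h ((coreV_mem (hF ρ hρ hc.2) hv).mp hc.1.2)

theorem coreV_split {α : Type*} [DecidableEq α] (U W X : Finset α) (h : Disjoint U W) :
    X.card = (X ∩ U).card + (X ∩ W).card + ((X \ U) \ W).card := by
  have h1 := Finset.card_inter_add_card_sdiff X U
  have h2 := Finset.card_inter_add_card_sdiff (X \ U) W
  have h3 : (X \ U) ∩ W = X ∩ W := by
    ext c
    simp only [Finset.mem_inter, Finset.mem_sdiff]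
    constructor
    · rintro ⟨⟨h1, _⟩, h3⟩
      exact ⟨h1, h3⟩
    · rintro ⟨h1, h3⟩
      exact ⟨⟨h1, fun h4 => (Finset.disjoint_left.mp h) h4 h3⟩, h3⟩
  rw [h3] at h2
  omega

theorem coreV {α ι : Type*} [Fintype α] [DecidableEq α] [DecidableEq ι] (k r C K : ℕ)
    (S : Finset α) (V : Finset ι) (u : ι → Finset α) (hS : S.card ≤ 2 * r)
    (A : Finset ι → Finset α) (a n : Finset ι → ℕ) (off : Finset ι → ℤ) (O O' : Finset α)
    (E : Finset ι → Finset α) (e : Finset ι → ℕ)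
    (hA : ∀ ρ ∈ V.powerset, A ρ ⊆ atom S V u ρ)
    (hO : O = S \ V.powerset.biUnion A) (hO' : O' ⊆ O) (hOk : O.card ≤ 2 ^ k)
    (hOc : O'.card = (O.card + 1) / 2)
    (ha : ∀ ρ ∈ V.powerset, (A ρ).card = 2 * a ρ ∧ (n ρ : ℤ) = a ρ + off ρ)
    (hoff : ∑ ρ ∈ V.powerset, off ρ = 0)
    (hoff1 : ∀ v ∈ V, (u v \ S).card < C →
      ∑ ρ ∈ V.powerset.filter (fun ρ => v ∈ ρ), off ρ = -K)
    (hoff2 : ∀ v, ∑ ρ ∈ V.powerset.filter (fun ρ => v ∈ ρ), off ρ ≤ K * k)
    (hE : ∀ ρ ∈ V.powerset, E ρ ⊆ atom (univ \ S) V u ρ)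
    (hEc : ∀ ρ ∈ V.powerset, (E ρ).card = 2 * e ρ)
    (hEs : ∑ ρ ∈ V.powerset, e ρ = r - (S.card + 1) / 2)
    (hE2 : ∀ v ∈ V, C ≤ (u v \ S).card → C ≤ ((u v \ S) \ V.powerset.biUnion E).card)
    (hK : 2 ^ k < 2 * K) (hC : 2 ^ k + 2 * K * k < C)
    (m : Finset α) (hm1 : ∀ ρ ∈ V.powerset, (m ∩ A ρ).card = n ρ)
    (hm2 : ∀ ρ ∈ V.powerset, (m ∩ E ρ).card = e ρ)
    (hm3 : (m \ V.powerset.biUnion A) \ V.powerset.biUnion E = O') :
    m.card ≤ r ∧ (symmDiff m S).card ≤ r ∧ ∀ v ∈ V, r + 1 ≤ (symmDiff m (u v)).card := by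
  classical
  set Q := V.powerset with hQ
  set UA := Q.biUnion A with hUA
  set UE := Q.biUnion E with hUE
  have hUAS : UA ⊆ S := by
    rw [hUA, Finset.biUnion_subset]
    intro ρ hρ c hc
    have := hA ρ hρ hc
    unfold atom at this
    exact (Finset.mem_filter.mp this).1
  have hUES : ∀ c ∈ UE, c ∉ S := by
    intro c hc
    rw [hUE, Finset.mem_biUnion] at hc
    obtain ⟨ρ, hρ, hc⟩ := hc
    have := hE ρ hρ hc
    unfold atom at this
    exact (Finset.mem_sdiff.mp (Finset.mem_filter.mp this).1).2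
  have hdisj : Disjoint UA UE := by
    rw [Finset.disjoint_left]
    intro c hc hc'
    exact hUES c hc' (hUAS hc)
  have hOS : O ⊆ S := by rw [hO]; exact Finset.sdiff_subset
  -- card of S
  have hScard : S.card = O.card + 2 * ∑ ρ ∈ Q, a ρ := by
    have h1 := Finset.card_sdiff_add_card_eq_card hUAS
    rw [← hO] at h1
    have h2 : UA.card = ∑ ρ ∈ Q, (A ρ).card := by
      have := coreV_sum S V u A hA univ
      simpa using this
    have h3 : ∑ ρ ∈ Q, (A ρ).card = 2 * ∑ ρ ∈ Q, a ρ := by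
      rw [Finset.mul_sum]
      exact Finset.sum_congr rfl fun ρ hρ => (ha ρ hρ).1
    omega
  have hn : ∑ ρ ∈ Q, n ρ = ∑ ρ ∈ Q, a ρ := by
    have : ((∑ ρ ∈ Q, n ρ : ℕ) : ℤ) = ((∑ ρ ∈ Q, a ρ : ℕ) : ℤ) := by
      push_cast
      rw [Finset.sum_congr rfl fun ρ hρ => (ha ρ hρ).2, Finset.sum_add_distrib, hoff, add_zero]
    exact_mod_cast this
  have hmA : (m ∩ UA).card = ∑ ρ ∈ Q, a ρ := by
    rw [hUA, coreV_sum S V u A hA m, Finset.sum_congr rfl hm1, hn]
  have hmE : (m ∩ UE).card = r - (S.card + 1) / 2 := by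
    rw [hUE, coreV_sum _ V u E hE m, Finset.sum_congr rfl hm2, hEs]
  have hmcard : m.card = r := by
    have h1 := coreV_split UA UE m hdisj
    rw [hm3, hmA, hmE, hOc] at h1
    omega
  have hO'm : O' ⊆ m := by
    rw [← hm3]
    exact Finset.sdiff_subset.trans Finset.sdiff_subset
  have hmS : S.card ≤ 2 * (m ∩ S).card := by
    have h1 : (m ∩ UA) ∪ O' ⊆ m ∩ S := by
      apply Finset.union_subset
      · exact Finset.inter_subset_inter_left hUAS
      · exact Finset.subset_inter hO'm (hO'.trans hOS)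
    have h2 : Disjoint (m ∩ UA) O' := by
      rw [Finset.disjoint_left]
      intro c hc hc'
      have h3 := hO' hc'
      rw [hO, Finset.mem_sdiff] at h3
      exact h3.2 (Finset.mem_inter.mp hc).2
    have h3 := Finset.card_le_card h1
    rw [Finset.card_union_of_disjoint h2, hmA, hOc] at h3
    omega
  refine ⟨hmcard.le, ?_, ?_⟩
  · have := card_symmDiff m S
    omega
  · intro v hv
    -- card of m ∩ u v
    have h1 : (m ∩ u v).card = ∑ ρ ∈ Q.filter (fun ρ => v ∈ ρ), n ρ +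
        ∑ ρ ∈ Q.filter (fun ρ => v ∈ ρ), e ρ + (O' ∩ u v).card := by
      rw [coreV_split UA UE (m ∩ u v) hdisj]
      congr 1
      · congr 1
        · rw [hUA, coreV_sum_v S V u A hA m v hv]
          exact Finset.sum_congr rfl fun ρ hρ => hm1 ρ (Finset.mem_filter.mp hρ).1
        · rw [hUE, coreV_sum_v _ V u E hE m v hv]
          exact Finset.sum_congr rfl fun ρ hρ => hm2 ρ (Finset.mem_filter.mp hρ).1
      · rw [← hm3]
        congr 1
        ext c
        simp only [Finset.mem_inter, Finset.mem_sdiff]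
        tauto
    have h2 : 2 * ∑ ρ ∈ Q.filter (fun ρ => v ∈ ρ), a ρ +
        2 * ∑ ρ ∈ Q.filter (fun ρ => v ∈ ρ), e ρ + (O ∩ u v).card +
          ((u v \ S) \ UE).card ≤ (u v).card := by
      rw [coreV_split UA UE (u v) hdisj]
      have e1 : (u v ∩ UA).card = 2 * ∑ ρ ∈ Q.filter (fun ρ => v ∈ ρ), a ρ := by
        have := coreV_sum_v S V u A hA univ v hv
        simp only [Finset.univ_inter] at this
        rw [hUA, this, Finset.mul_sum]
        exact Finset.sum_congr rfl fun ρ hρ => (ha ρ (Finset.mem_filter.mp hρ).1).1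
      have e2 : (u v ∩ UE).card = 2 * ∑ ρ ∈ Q.filter (fun ρ => v ∈ ρ), e ρ := by
        have := coreV_sum_v _ V u E hE univ v hv
        simp only [Finset.univ_inter] at this
        rw [hUE, this, Finset.mul_sum]
        exact Finset.sum_congr rfl fun ρ hρ => hEc ρ (Finset.mem_filter.mp hρ).1
      have e3 : (O ∩ u v).card + ((u v \ S) \ UE).card ≤ ((u v \ UA) \ UE).card := by
        rw [← Finset.card_union_of_disjoint]
        · apply Finset.card_le_card
          apply Finset.union_subset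
          · intro c hc
            rw [Finset.mem_inter] at hc
            have h3 := hc.1
            rw [hO, Finset.mem_sdiff] at h3
            rw [Finset.mem_sdiff, Finset.mem_sdiff]
            exact ⟨⟨hc.2, h3.2⟩, fun h4 => hUES c h4 h3.1⟩
          · intro c hc
            rw [Finset.mem_sdiff, Finset.mem_sdiff] at hc
            rw [Finset.mem_sdiff, Finset.mem_sdiff]
            exact ⟨⟨hc.1.1, fun h4 => hc.1.2 (hUAS h4)⟩, hc.2⟩
        · rw [Finset.disjoint_left]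
          intro c hc hc'
          rw [Finset.mem_inter] at hc
          rw [Finset.mem_sdiff, Finset.mem_sdiff] at hc'
          exact hc'.1.2 (hOS hc.1)
      omega
    have h3 : (O' ∩ u v).card ≤ (O ∩ u v).card :=
      Finset.card_le_card (Finset.inter_subset_inter_right hO')
    have h4 : (O' ∩ u v).card ≤ 2 ^ k := by
      calc (O' ∩ u v).card ≤ O'.card := Finset.card_le_card Finset.inter_subset_left
        _ ≤ O.card := Finset.card_le_card hO'
        _ ≤ 2 ^ k := hOk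
    have h5 : ((∑ ρ ∈ Q.filter (fun ρ => v ∈ ρ), n ρ : ℕ) : ℤ) =
        ((∑ ρ ∈ Q.filter (fun ρ => v ∈ ρ), a ρ : ℕ) : ℤ) +
          ∑ ρ ∈ Q.filter (fun ρ => v ∈ ρ), off ρ := by
      push_cast
      rw [← Finset.sum_add_distrib]
      exact Finset.sum_congr rfl fun ρ hρ => (ha ρ (Finset.mem_filter.mp hρ).1).2
    have h6 := card_symmDiff m (u v)
    have h7 : (K : ℤ) * k = ((K * k : ℕ) : ℤ) := by push_cast; rfl
    have h8 : 2 * K * k = 2 * (K * k) := by ring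
    by_cases hc : (u v \ S).card < C
    · have h9 := hoff1 v hv hc
      omega
    · have h9 := hoff2 v
      have h10 := hE2 v hv (by omega)
      rw [h7] at h9
      rw [h8] at hC
      omega

end Pool.Agent.Hen
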