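import Mathlib

/-!
# MODULE Presc (easy/medium)
Sets with prescribed intersections. Map `h ∈ T.pi (fun i => powersetCard (n i) (A i))` (or
`Fintype.piFinset` on the subtype) to `B ∪ ⋃ h i`; then `m ∩ A i = h i` by disjointness, so the map is
injective and lands in the right hand set; `card_pi`, `card_powersetCard`.
-/

set_option autoImplicit false

open Finset

namespace Pool.Agent.Hen

theorem presc {α R : Type*} [Fintype α] [DecidableEq α] [DecidableEq R] (T : Finset R)
    (A : R → Finset α) (n : R → ℕ) (hA : ∀ i ∈ T, ∀ j ∈ T, i ≠ j → Disjoint (A i) (A j))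
    (B : Finset α) (hB : ∀ i ∈ T, Disjoint B (A i)) :
    ∏ i ∈ T, (A i).card.choose (n i) ≤
      (univ.filter fun m : Finset α =>
        (∀ i ∈ T, (m ∩ A i).card = n i) ∧ m \ T.biUnion A = B).card := by
  classical
  induction T using Finset.induction_on with
  | empty =>
    rw [prod_empty]
    exact Finset.card_pos.2 ⟨B, by simp⟩
  | insert i T hi ih =>
    have ihT := ih (fun a ha b hb => hA a (mem_insert_of_mem ha) b (mem_insert_of_mem hb))
      (fun a ha => hB a (mem_insert_of_mem ha))
    rw [prod_insert hi, ← card_powersetCard]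
    refine le_trans (Nat.mul_le_mul_left _ ihT) ?_
    rw [← card_product]
    have hBi : Disjoint B (A i) := hB i (mem_insert_self i T)
    have hTi : ∀ j ∈ T, Disjoint (A i) (A j) := fun j hj =>
      hA i (mem_insert_self i T) j (mem_insert_of_mem hj) (fun h => hi (h ▸ hj))
    have key : ∀ p ∈ (powersetCard (n i) (A i) ×ˢ (univ.filter fun m : Finset α =>
        (∀ i ∈ T, (m ∩ A i).card = n i) ∧ m \ T.biUnion A = B)),
        p.1 ⊆ A i ∧ p.1.card = n i ∧ Disjoint p.2 (A i) ∧
        (∀ j ∈ T, (p.2 ∩ A j).card = n j) ∧ p.2 \ T.biUnion A = B := by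
      intro p hp
      rw [mem_product, mem_powersetCard, mem_filter] at hp
      obtain ⟨⟨h1, h2⟩, -, h3, h4⟩ := hp
      refine ⟨h1, h2, ?_, h3, h4⟩
      rw [Finset.disjoint_left]
      intro a ha hai
      by_cases hU : a ∈ T.biUnion A
      · rw [mem_biUnion] at hU
        obtain ⟨j, hj, haj⟩ := hU
        exact (Finset.disjoint_left.1 (hTi j hj)) hai haj
      · have : a ∈ B := by rw [← h4]; exact mem_sdiff.2 ⟨ha, hU⟩
        exact (Finset.disjoint_left.1 hBi) this hai
    apply card_le_card_of_injOn (fun p => p.1 ∪ p.2)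
    · intro p hp
      obtain ⟨h1, h2, h3, h4, h5⟩ := key p hp
      rw [Finset.mem_coe, mem_filter]
      refine ⟨mem_univ _, ?_, ?_⟩
      · intro j hj
        rw [mem_insert] at hj
        rcases hj with rfl | hj
        · rw [union_inter_distrib_right, (Finset.disjoint_iff_inter_eq_empty.1 h3), union_empty,
            inter_eq_left.2 h1, h2]
        · have : p.1 ∩ A j = ∅ := by
            rw [← Finset.disjoint_iff_inter_eq_empty]
            exact (hTi j hj).mono_left h1
          rw [union_inter_distrib_right, this, empty_union, h4 j hj]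
      · rw [biUnion_insert]
        ext a
        have e5 : (a ∈ p.2 ∧ a ∉ T.biUnion A) ↔ a ∈ B := by rw [← h5, mem_sdiff]
        have e3 : a ∈ p.2 → a ∉ A i := fun h => (Finset.disjoint_left.1 h3) h
        have e1 : a ∈ p.1 → a ∈ A i := fun h => h1 h
        simp only [mem_sdiff, mem_union]
        tauto
    · intro p hp q hq hpq
      obtain ⟨h1, h2, h3, h4, h5⟩ := key p hp
      obtain ⟨g1, g2, g3, g4, g5⟩ := key q hq
      have hpq' : p.1 ∪ p.2 = q.1 ∪ q.2 := hpq
      have hmem : ∀ a, (a ∈ p.1 ∨ a ∈ p.2) ↔ (a ∈ q.1 ∨ a ∈ q.2) := by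
        intro a
        rw [← mem_union, ← mem_union, hpq']
      refine Prod.ext ?_ ?_
      · ext a
        have := hmem a
        have e3 : a ∈ p.2 → a ∉ A i := fun h => (Finset.disjoint_left.1 h3) h
        have e1 : a ∈ p.1 → a ∈ A i := fun h => h1 h
        have f3 : a ∈ q.2 → a ∉ A i := fun h => (Finset.disjoint_left.1 g3) h
        have f1 : a ∈ q.1 → a ∈ A i := fun h => g1 h
        tauto
      · ext a
        have := hmem a
        have e3 : a ∈ p.2 → a ∉ A i := fun h => (Finset.disjoint_left.1 h3) h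
        have e1 : a ∈ p.1 → a ∈ A i := fun h => h1 h
        have f3 : a ∈ q.2 → a ∉ A i := fun h => (Finset.disjoint_left.1 g3) h
        have f1 : a ∈ q.1 → a ∈ A i := fun h => g1 h
        tauto

end Pool.Agent.Hen
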