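import Mathlib
import Pool.Agent.Hen.Defs
import Pool.Agent.Hen.Presc
import Pool.Agent.Hen.CoreS
import Pool.Agent.Hen.CoreE
import Pool.Agent.Hen.CoreProd
import Pool.Agent.Hen.CoreV

/-!
# MODULE Core (medium): assembly of the witness lemma
`K = 2^k`, `C₁ = 4 k K + 1`, `C = 4^k C₁ + 2^k + 2 K k + 1`, `r₀ = k C + 2^k + 1`. `Va = {v ∈ V : |u v \ S| < C}`. For `v ∈ Va`:
`u v ∆ patt = ((u v ∩ S) ∆ patt) ∪ (u v \ S)` (`patt ⊆ S`), so `|(u v ∩ S) ∆ patt| ≥ 2C - C ≥ 4^k C₁`: `coreS` applies. `coreE`.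
`presc` with the index set `V.powerset ×ˢ univ (Bool)` (or `V.powerset.disjSum V.powerset`), the sets `A ρ`, `E ρ` (disjoint:
atoms of `S`, `univ \ S`), the numbers `n ρ`, `e ρ`, `B = O'`; by `coreV` the sets counted there are witnesses.
`prod_bound` with `N = 2^k`, `L = 3r+2`, `B = K k`. `∑ a + ∑ e + 2^k ≥ r` as `2 ∑ a = |S| - |O|`. So
`4^r ≤ 4^(2^k) (3r+2)^(2 * 2^k) 3^(2^k * (K k)) * count` and `3r+2 ≤ 3(r+1)`.
-/

set_option autoImplicit false

open Finset

namespace Pool.Agent.Hen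

theorem core (k : ℕ) : ∃ C P e r₀ : ℕ, 1 ≤ C ∧ 1 ≤ P ∧ ∀ r, r₀ ≤ r →
    ∀ {ι : Type} [DecidableEq ι] (S : Finset (Fin (3 * r + 1))) (V : Finset ι)
      (u : ι → Finset (Fin (3 * r + 1))), S.card ≤ 2 * r → V.card ≤ k →
      (∀ v ∈ V, (u v \ S).card < C → ∀ F : Finset (Finset ι),
        2 * C ≤ (symmDiff (u v)
          (patt S ((V.filter fun a => (u a \ S).card < C).erase v) u F)).card) →
      4 ^ r ≤ P * (r + 1) ^ e * (univ.filter fun m : Finset (Fin (3 * r + 1)) =>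
        m.card ≤ r ∧ (symmDiff m S).card ≤ r ∧
          ∀ v ∈ V, r + 1 ≤ (symmDiff m (u v)).card).card := by
  set K : ℕ := 2 ^ k with hKdef
  set C₁ : ℕ := 4 * k * K + 1 with hC₁
  set C : ℕ := 4 ^ k * C₁ + 2 ^ k + 2 * K * k + 1 with hCdef
  refine ⟨C, 4 ^ (2 ^ k) * 3 ^ (2 * 2 ^ k) * 3 ^ (2 ^ k * (K * k)), 2 * 2 ^ k, k * C + 2 ^ k,
    by rw [hCdef]; exact Nat.le_add_left _ _, Nat.one_le_iff_ne_zero.mpr (by positivity), ?_⟩
  intro r hr ι _ S V u hS hV hyp
  classical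
  set Va : Finset ι := V.filter fun a => (u a \ S).card < C with hVa
  have hpattS : ∀ (O : Finset ι) (F : Finset (Finset ι)), patt S O u F ⊆ S :=
    fun O F => Finset.filter_subset _ _
  have hyp2 : ∀ v ∈ Va, ∀ F : Finset (Finset ι),
      4 ^ k * C₁ ≤ (symmDiff (u v ∩ S) (patt S (Va.erase v) u F)).card := by
    intro v hv F
    rw [hVa, Finset.mem_filter] at hv
    have h1 := hyp v hv.1 hv.2 F
    have h2 : symmDiff (u v) (patt S (Va.erase v) u F) ⊆
        symmDiff (u v ∩ S) (patt S (Va.erase v) u F) ∪ (u v \ S) := by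
      intro c hc
      rw [Finset.mem_symmDiff] at hc
      rw [Finset.mem_union, Finset.mem_symmDiff, Finset.mem_inter, Finset.mem_sdiff]
      by_cases hcS : c ∈ S
      · tauto
      · have : c ∉ patt S (Va.erase v) u F := fun h => hcS (hpattS _ _ h)
        tauto
    have h3 := (Finset.card_le_card h2).trans (Finset.card_union_le _ _)
    have h4 := hv.2
    have h2k : 0 < 2 ^ k := by positivity
    omega
  obtain ⟨A, a, n, off, O, O', hA, hO, hO', hOk, hOc, ha, hoff, hoff1, hoff2⟩ :=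
    coreS k K C₁ S V Va u hV (Finset.filter_subset _ _) (by omega) hyp2
  obtain ⟨E, e, hE, hEc, hEs, hE2⟩ := coreE k r C S V u hS hV hr
  have hUAS : V.powerset.biUnion A ⊆ S := by
    rw [Finset.biUnion_subset]
    intro ρ hρ c hc
    have := hA ρ hρ hc
    unfold atom at this
    exact (Finset.mem_filter.mp this).1
  have hScard : S.card = O.card + 2 * ∑ ρ ∈ V.powerset, a ρ := by
    have h1 := Finset.card_sdiff_add_card_eq_card hUAS
    rw [← hO] at h1
    have h2 : (V.powerset.biUnion A).card = ∑ ρ ∈ V.powerset, (A ρ).card := by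
      have := coreV_sum S V u A hA univ
      simpa using this
    have h3 : ∑ ρ ∈ V.powerset, (A ρ).card = 2 * ∑ ρ ∈ V.powerset, a ρ := by
      rw [Finset.mul_sum]
      exact Finset.sum_congr rfl fun ρ hρ => (ha ρ hρ).1
    omega
  have hcardle : ∀ X : Finset (Fin (3 * r + 1)), X.card ≤ 3 * r + 1 := by
    intro X
    have := Finset.card_le_univ X
    simpa using this
  -- product bound
  have hpb := prod_bound V.powerset (2 ^ k) (3 * r + 2) (K * k)
    (by rw [Finset.card_powerset]; exact Nat.pow_le_pow_right (by norm_num) hV) (by omega)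
    a n e off
    (fun ρ hρ => by
      have h1 := (ha ρ hρ).1
      have h2 := hcardle (A ρ)
      omega)
    (fun ρ hρ => by
      have h1 := hEc ρ hρ
      have h2 := hcardle (E ρ)
      omega)
    (fun ρ hρ => ⟨(ha ρ hρ).2.1, (ha ρ hρ).2.2.1, (ha ρ hρ).2.2.2⟩)
  -- prescribed intersections
  let T : Finset (Finset ι × Bool) := V.powerset ×ˢ (univ : Finset Bool)
  let A' : Finset ι × Bool → Finset (Fin (3 * r + 1)) := fun i => if i.2 then A i.1 else E i.1
  let n' : Finset ι × Bool → ℕ := fun i => if i.2 then n i.1 else e i.1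
  have hAE : ∀ ρ ∈ V.powerset, ∀ ρ' ∈ V.powerset, Disjoint (A ρ) (E ρ') := by
    intro ρ hρ ρ' hρ'
    rw [Finset.disjoint_left]
    intro c hc hc'
    have h1 := hA ρ hρ hc
    have h2 := hE ρ' hρ' hc'
    unfold atom at h1 h2
    exact (Finset.mem_sdiff.mp (Finset.mem_filter.mp h2).1).2 (Finset.mem_filter.mp h1).1
  have hOS : O ⊆ S := by rw [hO]; exact Finset.sdiff_subset
  have hcount := presc T A' n' (by
      rintro ⟨ρ, b⟩ hi ⟨ρ', b'⟩ hj hne
      have hi' : ρ ∈ V.powerset := (Finset.mem_product.mp hi).1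
      have hj' : ρ' ∈ V.powerset := (Finset.mem_product.mp hj).1
      cases b <;> cases b'
      · have hne' : ρ ≠ ρ' := fun h => hne (by rw [h])
        exact coreV_disj hne' (hE ρ hi') (hE ρ' hj')
      · exact (hAE ρ' hj' ρ hi').symm
      · exact hAE ρ hi' ρ' hj'
      · have hne' : ρ ≠ ρ' := fun h => hne (by rw [h])
        exact coreV_disj hne' (hA ρ hi') (hA ρ' hj')) O' (by
      rintro ⟨ρ, b⟩ hi
      have hi' : ρ ∈ V.powerset := (Finset.mem_product.mp hi).1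
      rw [Finset.disjoint_left]
      intro c hc hc'
      have hcO := hO' hc
      cases b
      · have hc'' : c ∈ E ρ := hc'
        have h2 := hE ρ hi' hc''
        unfold atom at h2
        exact (Finset.mem_sdiff.mp (Finset.mem_filter.mp h2).1).2 (hOS hcO)
      · have hc'' : c ∈ A ρ := hc'
        rw [hO, Finset.mem_sdiff] at hcO
        exact hcO.2 (Finset.mem_biUnion.mpr ⟨ρ, hi', hc''⟩))
  have hprod : ∏ i ∈ T, (A' i).card.choose (n' i) =
      (∏ ρ ∈ V.powerset, (2 * a ρ).choose (n ρ)) * ∏ ρ ∈ V.powerset, (2 * e ρ).choose (e ρ) := by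
    rw [Finset.prod_product, ← Finset.prod_mul_distrib]
    refine Finset.prod_congr rfl fun ρ hρ => ?_
    rw [Fintype.prod_bool]
    simp only [A', n', if_true, Bool.false_eq_true, if_false]
    rw [(ha ρ hρ).1, hEc ρ hρ]
  have hsub : (univ.filter fun m : Finset (Fin (3 * r + 1)) =>
        (∀ i ∈ T, (m ∩ A' i).card = n' i) ∧ m \ T.biUnion A' = O') ⊆
      (univ.filter fun m : Finset (Fin (3 * r + 1)) =>
        m.card ≤ r ∧ (symmDiff m S).card ≤ r ∧
          ∀ v ∈ V, r + 1 ≤ (symmDiff m (u v)).card) := by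
    intro m hm
    rw [Finset.mem_filter] at hm ⊢
    obtain ⟨_, hm1, hm2⟩ := hm
    refine ⟨Finset.mem_univ _, ?_⟩
    have hm3 : (m \ V.powerset.biUnion A) \ V.powerset.biUnion E = O' := by
      rw [← hm2]
      ext c
      simp only [Finset.mem_sdiff, Finset.mem_biUnion, not_exists, not_and]
      constructor
      · rintro ⟨⟨h1, h2⟩, h3⟩
        refine ⟨h1, ?_⟩
        rintro ⟨ρ, b⟩ hi hc
        have hi' : ρ ∈ V.powerset := (Finset.mem_product.mp hi).1
        cases b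
        · exact h3 ρ hi' hc
        · exact h2 ρ hi' hc
      · rintro ⟨h1, h2⟩
        refine ⟨⟨h1, fun ρ hρ hc => ?_⟩, fun ρ hρ hc => ?_⟩
        · exact h2 (ρ, true) (Finset.mem_product.mpr ⟨hρ, Finset.mem_univ _⟩) hc
        · exact h2 (ρ, false) (Finset.mem_product.mpr ⟨hρ, Finset.mem_univ _⟩) hc
    exact coreV k r C K S V u hS A a n off O O' E e hA hO hO' hOk hOc
      (fun ρ hρ => ⟨(ha ρ hρ).1, (ha ρ hρ).2.2.1⟩) hoff
      (fun v hv hvc => hoff1 v (by rw [hVa, Finset.mem_filter]; exact ⟨hv, hvc⟩)) hoff2 hE hEc hEs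
      hE2 (by rw [hKdef]; have : 0 < 2 ^ k := by positivity
              omega) (by omega) m
      (fun ρ hρ => hm1 (ρ, true) (Finset.mem_product.mpr ⟨hρ, Finset.mem_univ _⟩))
      (fun ρ hρ => hm1 (ρ, false) (Finset.mem_product.mpr ⟨hρ, Finset.mem_univ _⟩)) hm3
  have hcount2 := hcount.trans (Finset.card_le_card hsub)
  rw [hprod] at hcount2
  set N := (univ.filter fun m : Finset (Fin (3 * r + 1)) =>
        m.card ≤ r ∧ (symmDiff m S).card ≤ r ∧
          ∀ v ∈ V, r + 1 ≤ (symmDiff m (u v)).card).card with hN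
  have hexp : r ≤ 2 ^ k + (∑ ρ ∈ V.powerset, a ρ + ∑ ρ ∈ V.powerset, e ρ) := by
    have h2k : 1 ≤ 2 ^ k := Nat.one_le_two_pow
    rw [hEs]
    omega
  calc 4 ^ r ≤ 4 ^ (2 ^ k + (∑ ρ ∈ V.powerset, a ρ + ∑ ρ ∈ V.powerset, e ρ)) :=
        Nat.pow_le_pow_right (by norm_num) hexp
    _ = 4 ^ (2 ^ k) * 4 ^ (∑ ρ ∈ V.powerset, a ρ + ∑ ρ ∈ V.powerset, e ρ) := by rw [pow_add]
    _ ≤ 4 ^ (2 ^ k) * ((3 * r + 2) ^ (2 * 2 ^ k) * 3 ^ (2 ^ k * (K * k)) * N) := by
        apply Nat.mul_le_mul_left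
        exact hpb.trans (Nat.mul_le_mul_left _ hcount2)
    _ ≤ 4 ^ (2 ^ k) * ((3 * (r + 1)) ^ (2 * 2 ^ k) * 3 ^ (2 ^ k * (K * k)) * N) := by
        apply Nat.mul_le_mul_left
        apply Nat.mul_le_mul_right
        apply Nat.mul_le_mul_right
        exact Nat.pow_le_pow_left (by omega) _
    _ = 4 ^ (2 ^ k) * 3 ^ (2 * 2 ^ k) * 3 ^ (2 ^ k * (K * k)) * (r + 1) ^ (2 * 2 ^ k) * N := by
        rw [mul_pow]
        ring

end Pool.Agent.Hen
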