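import Mathlib
import Pool.Agent.Hen.Defs

/-!
# MODULE Count (medium)
-/

set_option autoImplicit false

open Finset

namespace Pool.Agent.Hen

theorem Count_small {α : Type*} [Fintype α] [DecidableEq α] (k : ℕ) :
    (univ.filter fun T : Finset α => T.card ≤ k).card ≤ (Fintype.card α + 1) ^ k := by
  have h1 : (univ.filter fun T : Finset α => T.card ≤ k) =
      (range (k + 1)).biUnion (fun i => powersetCard i (univ : Finset α)) := by
    ext T
    simp only [mem_filter, mem_univ, true_and, mem_biUnion, mem_range, mem_powersetCard,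
      subset_univ]
    constructor
    · intro h
      exact ⟨T.card, by omega, rfl⟩
    · rintro ⟨i, hi, rfl⟩
      omega
  rw [h1]
  calc _ ≤ ∑ i ∈ range (k + 1), (powersetCard i (univ : Finset α)).card := card_biUnion_le
    _ = ∑ i ∈ range (k + 1), (Fintype.card α).choose i := by
        refine sum_congr rfl fun i _ => ?_
        rw [card_powersetCard, card_univ]
    _ ≤ ∑ i ∈ range (k + 1), (Fintype.card α) ^ i * 1 ^ (k - i) * k.choose i := by
        refine sum_le_sum fun i hi => ?_
        have hi' : i ≤ k := by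
          have := mem_range.mp hi
          omega
        have h2 : (Fintype.card α).choose i ≤ (Fintype.card α) ^ i := Nat.choose_le_pow _ _
        have h3 : 1 ≤ k.choose i := Nat.choose_pos hi'
        calc (Fintype.card α).choose i ≤ (Fintype.card α) ^ i * 1 := by omega
          _ ≤ (Fintype.card α) ^ i * 1 ^ (k - i) * k.choose i := by
            rw [one_pow]
            simpa using Nat.mul_le_mul_left (Fintype.card α ^ i) h3
    _ = (Fintype.card α + 1) ^ k := by
        rw [add_pow]
        simp

theorem Count_lt (r c : ℕ) :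
    (univ.filter fun T : Finset (Fin (3 * r + 1)) => T.card < c).card ≤ (3 * r + 2) ^ c := by
  rcases c with _ | c
  · simp
  · have h := Count_small (α := Fin (3 * r + 1)) c
    rw [Fintype.card_fin] at h
    calc _ = (univ.filter fun T : Finset (Fin (3 * r + 1)) => T.card ≤ c).card := by
          congr 1
          ext T
          simp only [mem_filter, mem_univ, true_and]
          omega
      _ ≤ (3 * r + 2) ^ c := h
      _ ≤ (3 * r + 2) ^ (c + 1) := Nat.pow_le_pow_right (by omega) (by omega)

theorem ball (r c : ℕ) (P : Finset (Fin (3 * r + 1))) :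
    (univ.filter fun u : Finset (Fin (3 * r + 1)) => (symmDiff u P).card < c).card ≤
      (3 * r + 2) ^ c := by
  refine le_trans ?_ (Count_lt r c)
  refine card_le_card_of_injOn (fun u => symmDiff u P) ?_ ?_
  · intro u hu
    simpa using hu
  · intro u _ v _ h
    exact symmDiff_left_injective P h

theorem out (r c : ℕ) (S : Finset (Fin (3 * r + 1))) :
    (univ.filter fun u : Finset (Fin (3 * r + 1)) => (u \ S).card < c).card ≤
      2 ^ S.card * (3 * r + 2) ^ c := by
  calc _ ≤ (S.powerset ×ˢ (univ.filter fun T : Finset (Fin (3 * r + 1)) => T.card < c)).card := by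
        refine card_le_card_of_injOn (fun u => (u ∩ S, u \ S)) ?_ ?_
        · intro u hu
          simp only [coe_filter, mem_univ, true_and, Set.mem_ofPred_eq] at hu
          simp [hu]
        · intro u _ v _ h
          simp only [Prod.mk.injEq] at h
          rw [← sdiff_union_inter u S, ← sdiff_union_inter v S, h.1, h.2]
    _ = 2 ^ S.card * (univ.filter fun T : Finset (Fin (3 * r + 1)) => T.card < c).card := by
        rw [card_product, card_powerset]
    _ ≤ _ := Nat.mul_le_mul_left _ (Count_lt r c)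

theorem close (r c : ℕ) :
    (univ.filter fun q : Finset (Fin (3 * r + 1)) × Finset (Fin (3 * r + 1)) =>
      q.1 ≠ q.2 ∧ (symmDiff q.1 q.2).card < c).card ≤ 2 ^ (3 * r + 1) * (3 * r + 2) ^ c := by
  have h := card_le_mul_card_image_of_maps_to
    (s := univ.filter fun q : Finset (Fin (3 * r + 1)) × Finset (Fin (3 * r + 1)) =>
      q.1 ≠ q.2 ∧ (symmDiff q.1 q.2).card < c) (t := (univ : Finset (Finset (Fin (3 * r + 1)))))
    (f := Prod.fst) (fun _ _ => mem_univ _) ((3 * r + 2) ^ c) (by
      intro x _
      refine le_trans ?_ (ball r c x)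
      refine card_le_card_of_injOn Prod.snd ?_ ?_
      · rintro ⟨a, b⟩ hab
        simp only [coe_filter, mem_filter, mem_univ, true_and, Set.mem_ofPred_eq] at hab ⊢
        obtain ⟨⟨_, h2⟩, h3⟩ := hab
        subst h3
        rw [symmDiff_comm]
        exact h2
      · rintro ⟨a, b⟩ hab ⟨a', b'⟩ hab' h
        simp only [coe_filter, mem_filter, mem_univ, true_and, Set.mem_ofPred_eq] at hab hab' h
        rw [hab.2, hab'.2, h])
  rw [card_univ, Fintype.card_finset, Fintype.card_fin] at h
  exact h.trans (le_of_eq (mul_comm _ _))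

open Classical in
theorem Count_fiber (r C j : ℕ) (x y : Finset (Fin (3 * r + 1))) :
    (univ.filter fun q : Finset (Finset (Fin (3 * r + 1))) × Finset (Fin (3 * r + 1)) =>
      Bad r C j x y q.1 q.2).card ≤
      (2 ^ (symmDiff x y).card * (3 * r + 2) ^ C) ^ j *
        (2 ^ (2 ^ j) * (3 * r + 2) ^ (2 * C)) := by
  set W : Finset (Finset (Fin (3 * r + 1))) :=
    univ.filter fun a => (symmDiff a x \ symmDiff x y).card < C with hW
  have hWc : W.card ≤ 2 ^ (symmDiff x y).card * (3 * r + 2) ^ C := by
    refine le_trans ?_ (out r C (symmDiff x y))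
    refine card_le_card_of_injOn (fun a => symmDiff a x) ?_ ?_
    · intro a ha
      simpa [hW] using ha
    · intro a _ b _ h
      exact symmDiff_left_injective x h
  have hsub : (univ.filter fun q : Finset (Finset (Fin (3 * r + 1))) × Finset (Fin (3 * r + 1)) =>
      Bad r C j x y q.1 q.2) ⊆ (powersetCard j W).biUnion (fun O =>
        (O.powerset.powerset.biUnion fun F =>
          univ.filter fun v => (symmDiff (symmDiff v x)
            (patt (symmDiff x y) O (fun a => symmDiff a x) F)).card < 2 * C).image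
              (fun v => (O, v))) := by
    rintro ⟨O, v⟩ h
    simp only [mem_filter, mem_univ, true_and] at h
    obtain ⟨_, _, _, _, _, _, h7, _, h9, F, hF, h10⟩ := h
    simp only [mem_biUnion, mem_image, mem_filter, mem_univ, true_and, mem_powersetCard,
      mem_powerset]
    refine ⟨O, ⟨?_, h7⟩, v, ⟨F, hF, h10⟩, rfl⟩
    intro a ha
    simp only [hW, mem_filter, mem_univ, true_and]
    exact h9 a ha
  refine le_trans (card_le_card hsub) ?_
  refine le_trans (card_biUnion_le_card_mul _ _ (2 ^ (2 ^ j) * (3 * r + 2) ^ (2 * C)) ?_) ?_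
  · intro O hO
    rw [mem_powersetCard] at hO
    refine le_trans card_image_le ?_
    refine le_trans (card_biUnion_le_card_mul _ _ ((3 * r + 2) ^ (2 * C)) ?_) ?_
    · intro F _
      refine le_trans ?_ (ball r (2 * C) (patt (symmDiff x y) O (fun a => symmDiff a x) F))
      refine card_le_card_of_injOn (fun a => symmDiff a x) ?_ ?_
      · intro a ha
        simpa using ha
      · intro a _ b _ h
        exact symmDiff_left_injective x h
    · rw [card_powerset, card_powerset, hO.2]
  · refine Nat.mul_le_mul_right _ ?_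
    rw [card_powersetCard]
    exact le_trans (Nat.choose_le_pow _ _) (Nat.pow_le_pow_left hWc j)

open Classical in
theorem bad_count (r C j : ℕ) (hj : 1 ≤ j) :
    (univ.filter fun q : Finset (Fin (3 * r + 1)) × Finset (Fin (3 * r + 1)) ×
        Finset (Finset (Fin (3 * r + 1))) × Finset (Fin (3 * r + 1)) =>
      Bad r C j q.1 q.2.1 q.2.2.1 q.2.2.2).card ≤
      2 ^ (3 * r + 1) * 3 ^ (3 * r + 1) * 4 ^ (r * (j - 1)) * (3 * r + 2) ^ (C * j + 2 * C) *
        2 ^ (2 ^ j) := by
  obtain ⟨i, rfl⟩ : ∃ i, j = i + 1 := ⟨j - 1, by omega⟩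
  simp only [Nat.add_sub_cancel]
  set A := (univ.filter fun q : Finset (Fin (3 * r + 1)) × Finset (Fin (3 * r + 1)) ×
        Finset (Finset (Fin (3 * r + 1))) × Finset (Fin (3 * r + 1)) =>
      Bad r C (i + 1) q.1 q.2.1 q.2.2.1 q.2.2.2) with hA
  have h1 : A.card = ∑ b ∈ (univ : Finset (Finset (Fin (3 * r + 1)) × Finset (Fin (3 * r + 1)))),
      (A.filter fun q => (q.1, q.2.1) = b).card :=
    card_eq_sum_card_fiberwise (fun _ _ => by simp)
  have h2 : ∀ b : Finset (Fin (3 * r + 1)) × Finset (Fin (3 * r + 1)),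
      (A.filter fun q => (q.1, q.2.1) = b).card ≤
        2 ^ (symmDiff b.1 b.2).card * (4 ^ (r * i) * (3 * r + 2) ^ (C * (i + 1) + 2 * C) *
          2 ^ (2 ^ (i + 1))) := by
    rintro ⟨x, y⟩
    by_cases hxy : (symmDiff x y).card ≤ 2 * r
    · have h3 : (A.filter fun q => (q.1, q.2.1) = (x, y)).card ≤
          (univ.filter fun q : Finset (Finset (Fin (3 * r + 1))) × Finset (Fin (3 * r + 1)) =>
            Bad r C (i + 1) x y q.1 q.2).card := by
        refine card_le_card_of_injOn (fun q => q.2.2) ?_ ?_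
        · rintro ⟨a, b, O, v⟩ h
          simp only [hA, coe_filter, mem_filter, mem_univ, true_and, Set.mem_ofPred_eq,
            Prod.mk.injEq] at h ⊢
          obtain ⟨h3, rfl, rfl⟩ := h
          exact h3
        · rintro ⟨a, b, O, v⟩ h ⟨a', b', O', v'⟩ h' hh
          simp only [hA, coe_filter, mem_filter, mem_univ, true_and, Set.mem_ofPred_eq,
            Prod.mk.injEq] at h h' hh ⊢
          obtain ⟨_, rfl, rfl⟩ := h
          obtain ⟨_, rfl, rfl⟩ := h'
          exact ⟨rfl, rfl, hh.1, hh.2⟩
      refine le_trans h3 (le_trans (Count_fiber r C (i + 1) x y) ?_)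
      have h4 : (2 ^ (symmDiff x y).card) ^ i ≤ 4 ^ (r * i) := by
        rw [pow_mul]
        refine Nat.pow_le_pow_left ?_ i
        calc 2 ^ (symmDiff x y).card ≤ 2 ^ (2 * r) := Nat.pow_le_pow_right (by omega) hxy
          _ = 4 ^ r := by rw [pow_mul]; norm_num
      calc (2 ^ (symmDiff x y).card * (3 * r + 2) ^ C) ^ (i + 1) *
            (2 ^ (2 ^ (i + 1)) * (3 * r + 2) ^ (2 * C))
          = 2 ^ (symmDiff x y).card * ((2 ^ (symmDiff x y).card) ^ i *
            (3 * r + 2) ^ (C * (i + 1) + 2 * C) * 2 ^ (2 ^ (i + 1))) := by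
              rw [mul_pow, pow_succ (2 ^ (symmDiff x y).card) i, ← pow_mul (3 * r + 2) C (i + 1),
                pow_add (3 * r + 2)]
              ring
        _ ≤ _ := by
              refine Nat.mul_le_mul_left _ (Nat.mul_le_mul_right _ (Nat.mul_le_mul_right _ h4))
    · have h3 : (A.filter fun q => (q.1, q.2.1) = (x, y)) = ∅ := by
        rw [filter_eq_empty_iff]
        rintro ⟨a, b, O, v⟩ h h'
        simp only [hA, mem_filter, mem_univ, true_and] at h
        simp only [Prod.mk.injEq] at h'
        obtain ⟨rfl, rfl⟩ := h'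
        exact hxy h.2.2.2.2.2.2.2.1
      rw [h3, card_empty]
      exact Nat.zero_le _
  have h5 : ∑ b : Finset (Fin (3 * r + 1)) × Finset (Fin (3 * r + 1)),
      2 ^ (symmDiff b.1 b.2).card = 2 ^ (3 * r + 1) * 3 ^ (3 * r + 1) := by
    rw [Fintype.sum_prod_type]
    have h6 : ∀ x : Finset (Fin (3 * r + 1)),
        ∑ y : Finset (Fin (3 * r + 1)), 2 ^ (symmDiff x y).card = 3 ^ (3 * r + 1) := by
      intro x
      have h7 : ∑ y : Finset (Fin (3 * r + 1)), 2 ^ (symmDiff x y).card =
          ∑ S : Finset (Fin (3 * r + 1)), 2 ^ S.card := by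
        refine Fintype.sum_bijective (fun y => symmDiff x y) ?_ _ _ (fun y => rfl)
        exact (symmDiff_right_involutive x).bijective
      rw [h7]
      have h8 := Finset.sum_pow_mul_eq_add_pow (2 : ℕ) 1 (univ : Finset (Fin (3 * r + 1)))
      rw [powerset_univ, card_univ, Fintype.card_fin] at h8
      simpa using h8
    rw [sum_congr rfl fun x _ => h6 x, sum_const, card_univ, Fintype.card_finset,
      Fintype.card_fin, smul_eq_mul]
  rw [h1]
  calc _ ≤ ∑ b : Finset (Fin (3 * r + 1)) × Finset (Fin (3 * r + 1)),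
        2 ^ (symmDiff b.1 b.2).card * (4 ^ (r * i) * (3 * r + 2) ^ (C * (i + 1) + 2 * C) *
          2 ^ (2 ^ (i + 1))) := sum_le_sum fun b _ => h2 b
    _ = 2 ^ (3 * r + 1) * 3 ^ (3 * r + 1) * (4 ^ (r * i) * (3 * r + 2) ^ (C * (i + 1) + 2 * C) *
          2 ^ (2 ^ (i + 1))) := by rw [← sum_mul, h5]
    _ = _ := by ring

/-- number of tuples `(x, y, V)` with `V.card ≤ k` -/
theorem tuples (r k : ℕ) :
    (univ.filter fun q : Finset (Fin (3 * r + 1)) × Finset (Fin (3 * r + 1)) ×
        Finset (Finset (Fin (3 * r + 1))) => q.2.2.card ≤ k).card ≤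
      (2 ^ (3 * r + 1)) ^ 2 * (2 ^ (3 * r + 1) + 1) ^ k := by
  have h := Count_small (α := Finset (Fin (3 * r + 1))) k
  rw [Fintype.card_finset, Fintype.card_fin] at h
  calc _ ≤ ((univ : Finset (Finset (Fin (3 * r + 1)))) ×ˢ
        ((univ : Finset (Finset (Fin (3 * r + 1)))) ×ˢ
        (univ.filter fun T : Finset (Finset (Fin (3 * r + 1))) => T.card ≤ k))).card := by
        refine card_le_card ?_
        rintro ⟨x, y, V⟩ hq
        simpa using hq
    _ = 2 ^ (3 * r + 1) * (2 ^ (3 * r + 1) *
        (univ.filter fun T : Finset (Finset (Fin (3 * r + 1))) => T.card ≤ k).card) := by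
        rw [card_product, card_product, card_univ, Fintype.card_finset, Fintype.card_fin]
    _ ≤ 2 ^ (3 * r + 1) * (2 ^ (3 * r + 1) * (2 ^ (3 * r + 1) + 1) ^ k) :=
        Nat.mul_le_mul_left _ (Nat.mul_le_mul_left _ h)
    _ = _ := by ring

end Pool.Agent.Hen
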