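import Mathlib

/-!
# MODULE Samp (easy/medium): random subsets of density 1/M
Count the functions `c : Ω → Fin M` (`X = {w : c w = 0}`). The number of `c` with `c = 0` on a set `A` of `a` points is
`M^(|Ω|-a)`; the number of `c` with `c ≠ 0` on a set of `b` points is `(M-1)^b M^(|Ω|-b)`
(`Fintype.piFinset`, `Fintype.card_piFinset`, products over `univ`). By `h` the number of `c` that violate one of the
conditions is less than `M^|Ω|`.
-/

set_option autoImplicit false

open Finset

namespace Pool.Agent.Hen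

/-- functions vanishing on `A` -/
theorem samp_zero {Ω : Type*} [Fintype Ω] [DecidableEq Ω] (M : ℕ) (A : Finset Ω) :
    (((Finset.univ : Finset (Ω → Fin (M + 1))).filter (fun c => ∀ w ∈ A, c w = 0)).card : ℝ)
      = (1 / ((M : ℝ) + 1)) ^ A.card * ((M : ℝ) + 1) ^ Fintype.card Ω := by
  have h1 : (Finset.univ : Finset (Ω → Fin (M + 1))).filter (fun c => ∀ w ∈ A, c w = 0)
      = Fintype.piFinset (fun w => if w ∈ A then ({0} : Finset (Fin (M + 1))) else Finset.univ) := by
    ext c
    simp only [Finset.mem_filter, Finset.mem_univ, true_and, Fintype.mem_piFinset]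
    constructor
    · intro h w
      split_ifs with hw
      · simp [h w hw]
      · exact Finset.mem_univ _
    · intro h w hw
      have := h w
      rw [if_pos hw] at this
      simpa using this
  have hM0 : ((M : ℝ) + 1) ≠ 0 := by positivity
  rw [h1, Fintype.card_piFinset]
  push_cast
  have h2 : ∀ w : Ω, (((if w ∈ A then ({0} : Finset (Fin (M + 1))) else Finset.univ).card : ℕ) : ℝ)
      = (if w ∈ A then 1 / ((M : ℝ) + 1) else 1) * ((M : ℝ) + 1) := by
    intro w
    split_ifs with hw
    · simp [hM0]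
    · simp
  rw [Finset.prod_congr rfl (fun w _ => h2 w), Finset.prod_mul_distrib, Finset.prod_const,
    Finset.card_univ]
  congr 1
  rw [Finset.prod_ite, Finset.prod_const, Finset.prod_const_one, mul_one]
  congr 2
  ext w
  simp

/-- functions which do not vanish on `A` -/
theorem samp_ne {Ω : Type*} [Fintype Ω] [DecidableEq Ω] (M : ℕ) (A : Finset Ω) :
    (((Finset.univ : Finset (Ω → Fin (M + 1))).filter (fun c => ∀ w ∈ A, c w ≠ 0)).card : ℝ)
      = (1 - 1 / ((M : ℝ) + 1)) ^ A.card * ((M : ℝ) + 1) ^ Fintype.card Ω := by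
  have h1 : (Finset.univ : Finset (Ω → Fin (M + 1))).filter (fun c => ∀ w ∈ A, c w ≠ 0)
      = Fintype.piFinset (fun w => if w ∈ A then (Finset.univ.erase (0 : Fin (M + 1)))
          else Finset.univ) := by
    ext c
    simp only [Finset.mem_filter, Finset.mem_univ, true_and, Fintype.mem_piFinset]
    constructor
    · intro h w
      split_ifs with hw
      · simp [h w hw]
      · exact Finset.mem_univ _
    · intro h w hw
      have := h w
      rw [if_pos hw] at this
      simpa using this
  have hM0 : ((M : ℝ) + 1) ≠ 0 := by positivity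
  rw [h1, Fintype.card_piFinset]
  push_cast
  have h2 : ∀ w : Ω, (((if w ∈ A then (Finset.univ.erase (0 : Fin (M + 1)))
          else Finset.univ).card : ℕ) : ℝ)
      = (if w ∈ A then 1 - 1 / ((M : ℝ) + 1) else 1) * ((M : ℝ) + 1) := by
    intro w
    split_ifs with hw
    · rw [Finset.card_erase_of_mem (Finset.mem_univ _), Finset.card_univ, Fintype.card_fin]
      rw [Nat.add_sub_cancel]
      field_simp
      ring
    · simp
  rw [Finset.prod_congr rfl (fun w _ => h2 w), Finset.prod_mul_distrib, Finset.prod_const,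
    Finset.card_univ]
  congr 1
  rw [Finset.prod_ite, Finset.prod_const, Finset.prod_const_one, mul_one]
  congr 2
  ext w
  simp

theorem samp {Ω ι κ : Type*} [Fintype Ω] [DecidableEq Ω] (M : ℕ) (hM : 1 ≤ M) (s : Finset ι)
    (f : ι → Finset Ω) (t : Finset κ) (W : κ → Finset Ω)
    (h : ∑ i ∈ s, (1 / (M : ℝ)) ^ (f i).card + ∑ j ∈ t, (1 - 1 / (M : ℝ)) ^ (W j).card < 1) :
    ∃ X : Finset Ω, (∀ i ∈ s, ¬ f i ⊆ X) ∧ ∀ j ∈ t, ∃ w ∈ W j, w ∈ X := by
  classical
  obtain ⟨M, rfl⟩ : ∃ M', M = M' + 1 := ⟨M - 1, by omega⟩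
  push_cast at h
  by_contra hcon
  push Not at hcon
  have hcov : (Finset.univ : Finset (Ω → Fin (M + 1))) ⊆
      (s.biUnion fun i => (Finset.univ : Finset (Ω → Fin (M + 1))).filter
        (fun c => ∀ w ∈ f i, c w = 0)) ∪
      (t.biUnion fun j => (Finset.univ : Finset (Ω → Fin (M + 1))).filter
        (fun c => ∀ w ∈ W j, c w ≠ 0)) := by
    intro c _
    rw [Finset.mem_union, Finset.mem_biUnion, Finset.mem_biUnion]
    by_cases hs : ∀ i ∈ s, ¬ f i ⊆ Finset.univ.filter (fun w => c w = 0)
    · obtain ⟨j, hj, hjw⟩ := hcon _ hs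
      right
      refine ⟨j, hj, ?_⟩
      rw [Finset.mem_filter]
      refine ⟨Finset.mem_univ _, fun w hw h0 => hjw w hw ?_⟩
      simp [h0]
    · push Not at hs
      obtain ⟨i, hi, hsub⟩ := hs
      left
      refine ⟨i, hi, ?_⟩
      rw [Finset.mem_filter]
      refine ⟨Finset.mem_univ _, fun w hw => ?_⟩
      have := hsub hw
      simpa using this
  have h1 := Finset.card_le_card hcov
  have h2 := h1.trans (Finset.card_union_le _ _)
  have h3 := h2.trans (add_le_add Finset.card_biUnion_le Finset.card_biUnion_le)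
  have h4 : ((Finset.univ : Finset (Ω → Fin (M + 1))).card : ℝ) ≤
      ∑ i ∈ s, (((Finset.univ : Finset (Ω → Fin (M + 1))).filter
        (fun c => ∀ w ∈ f i, c w = 0)).card : ℝ) +
      ∑ j ∈ t, (((Finset.univ : Finset (Ω → Fin (M + 1))).filter
        (fun c => ∀ w ∈ W j, c w ≠ 0)).card : ℝ) := by exact_mod_cast h3
  have h5 : ((Finset.univ : Finset (Ω → Fin (M + 1))).card : ℝ) = ((M : ℝ) + 1) ^ Fintype.card Ω := by
    rw [Finset.card_univ, Fintype.card_fun, Fintype.card_fin]
    push_cast
    rfl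
  rw [h5, Finset.sum_congr rfl (fun i _ => samp_zero M (f i)),
    Finset.sum_congr rfl (fun j _ => samp_ne M (W j)), ← Finset.sum_mul, ← Finset.sum_mul,
    ← add_mul] at h4
  have hpos : (0 : ℝ) < ((M : ℝ) + 1) ^ Fintype.card Ω := by positivity
  have h6 := mul_lt_mul_of_pos_right h hpos
  linarith

end Pool.Agent.Hen
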