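import Mathlib
import Pool.Agent.Hen.Defs
import Pool.Agent.Hen.Tri
import Pool.Agent.Hen.Samp
import Pool.Agent.Hen.Count
import Pool.Agent.Hen.Asym
import Pool.Agent.Hen.Core

/-!
# MODULE Final: a random subset of the cube
-/

set_option autoImplicit false

open Finset

namespace Pool.Agent.Hen

theorem Final_compl {α : Type*} [Fintype α] [DecidableEq α] (x y m : Finset α) :
    symmDiff (symmDiff x m)ᶜ y = (symmDiff m (symmDiff x y))ᶜ := by
  ext c
  simp only [mem_symmDiff, mem_compl]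
  tauto

theorem Final_self {α : Type*} [DecidableEq α] (x m : Finset α) :
    symmDiff m (symmDiff x x) = m := by
  rw [symmDiff_self]
  ext c
  simp [mem_symmDiff]

theorem Final_card_compl {r : ℕ} (m : Finset (Fin (3 * r + 1))) :
    mᶜ.card = 3 * r + 1 - m.card := by
  rw [card_compl, Fintype.card_fin]

/-- witnesses of `(x, y, V)` -/
def Final_W (r : ℕ) (q : Finset (Fin (3 * r + 1)) × Finset (Fin (3 * r + 1)) ×
    Finset (Finset (Fin (3 * r + 1)))) : Finset (Finset (Fin (3 * r + 1))) :=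
  (univ.filter fun w => 2 * r + 1 ≤ (symmDiff w q.1).card ∧
    2 * r + 1 ≤ (symmDiff w q.2.1).card ∧ ∀ v ∈ q.2.2, (symmDiff w v).card ≤ 2 * r) \ q.2.2

theorem Final_card_W (r k : ℕ) (x y : Finset (Fin (3 * r + 1)))
    (V : Finset (Finset (Fin (3 * r + 1)))) (hV : V.card ≤ k) :
    (univ.filter fun m : Finset (Fin (3 * r + 1)) =>
        m.card ≤ r ∧ (symmDiff m (symmDiff x y)).card ≤ r ∧
          ∀ v ∈ V, r + 1 ≤ (symmDiff m (symmDiff v x)).card).card ≤
      (Final_W r (x, y, V)).card + k := by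
  have h1 : (univ.filter fun m : Finset (Fin (3 * r + 1)) =>
        m.card ≤ r ∧ (symmDiff m (symmDiff x y)).card ≤ r ∧
          ∀ v ∈ V, r + 1 ≤ (symmDiff m (symmDiff v x)).card).card ≤
      (univ.filter fun w => 2 * r + 1 ≤ (symmDiff w x).card ∧
        2 * r + 1 ≤ (symmDiff w y).card ∧ ∀ v ∈ V, (symmDiff w v).card ≤ 2 * r).card := by
    apply card_le_card_of_injOn (fun m => (symmDiff x m)ᶜ)
    · intro m hm
      simp only [coe_filter, mem_univ, true_and, Set.mem_ofPred_eq] at hm ⊢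
      obtain ⟨h1, h2, h3⟩ := hm
      refine ⟨?_, ?_, ?_⟩
      · rw [Final_compl, Final_self, Final_card_compl]
        omega
      · rw [Final_compl, Final_card_compl]
        omega
      · intro v hv
        have := h3 v hv
        rw [Final_compl, Final_card_compl, symmDiff_comm x v]
        omega
    · intro a _ b _ hab
      simp only at hab
      have := compl_injective hab
      exact symmDiff_right_injective x this
  have h2 := le_card_sdiff V (univ.filter fun w => 2 * r + 1 ≤ (symmDiff w x).card ∧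
        2 * r + 1 ≤ (symmDiff w y).card ∧ ∀ v ∈ V, (symmDiff w v).card ≤ 2 * r)
  unfold Final_W
  simp only
  omega

open Classical in
/-- tuples for which the hypothesis of `core` holds -/
noncomputable def Final_good (r C k : ℕ) : Finset (Finset (Fin (3 * r + 1)) × Finset (Fin (3 * r + 1)) ×
    Finset (Finset (Fin (3 * r + 1)))) :=
  univ.filter fun q => q.2.2.card ≤ k ∧ (symmDiff q.1 q.2.1).card ≤ 2 * r ∧
    ∀ v ∈ q.2.2, (symmDiff v q.1 \ symmDiff q.1 q.2.1).card < C →
      ∀ F : Finset (Finset (Finset (Fin (3 * r + 1)))),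
        2 * C ≤ (symmDiff (symmDiff v q.1) (patt (symmDiff q.1 q.2.1)
          ((q.2.2.filter fun a => (symmDiff a q.1 \ symmDiff q.1 q.2.1).card < C).erase v)
            (fun a => symmDiff a q.1) F)).card

theorem Final_card_good (r C k : ℕ) :
    (Final_good r C k).card ≤ (2 ^ (3 * r + 1)) ^ 2 * (2 ^ (3 * r + 1) + 1) ^ k := by
  refine le_trans (card_le_card ?_) (tuples r k)
  intro q hq
  simp only [Final_good, mem_filter, mem_univ, true_and] at hq ⊢
  exact hq.1

open Classical in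
noncomputable def Final_bad (r C j : ℕ) : Finset (Finset (Fin (3 * r + 1)) × Finset (Fin (3 * r + 1)) ×
        Finset (Finset (Fin (3 * r + 1))) × Finset (Fin (3 * r + 1))) :=
  univ.filter fun q => Bad r C j q.1 q.2.1 q.2.2.1 q.2.2.2

noncomputable def Final_s (r C k : ℕ) : Finset ((Finset (Fin (3 * r + 1)) × Finset (Fin (3 * r + 1))) ⊕
    (Σ _ : ℕ, Finset (Fin (3 * r + 1)) × Finset (Fin (3 * r + 1)) ×
        Finset (Finset (Fin (3 * r + 1))) × Finset (Fin (3 * r + 1)))) :=
  (univ.filter fun q : Finset (Fin (3 * r + 1)) × Finset (Fin (3 * r + 1)) =>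
      q.1 ≠ q.2 ∧ (symmDiff q.1 q.2).card < 2 * C).disjSum
    ((Icc 1 k).sigma fun j => Final_bad r C j)

def Final_f (r : ℕ) : ((Finset (Fin (3 * r + 1)) × Finset (Fin (3 * r + 1))) ⊕
    (Σ _ : ℕ, Finset (Fin (3 * r + 1)) × Finset (Fin (3 * r + 1)) ×
        Finset (Finset (Fin (3 * r + 1))) × Finset (Fin (3 * r + 1)))) →
      Finset (Finset (Fin (3 * r + 1)))
  | Sum.inl q => {q.1, q.2}
  | Sum.inr q => insert q.2.1 (insert q.2.2.1 (insert q.2.2.2.2 q.2.2.2.1))

theorem Final_sum_s (r C k M : ℕ) (hM : 1 ≤ M)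
    (h1 : (2 : ℝ) ^ (3 * r + 1) * (3 * r + 2) ^ (2 * C) * (1 / (M : ℝ)) ^ 2 ≤ 1 / 4)
    (h2 : ∑ j ∈ Icc 1 k, (2 : ℝ) ^ (3 * r + 1) * 3 ^ (3 * r + 1) * 4 ^ (r * (j - 1)) *
      (3 * r + 2) ^ (C * j + 2 * C) * 2 ^ (2 ^ j) * (1 / (M : ℝ)) ^ (j + 3) ≤ 1 / 4) :
    ∑ i ∈ Final_s r C k, (1 / (M : ℝ)) ^ (Final_f r i).card ≤ 1 / 2 := by
  rw [Final_s, sum_disjSum, sum_sigma]
  have hM' : (0 : ℝ) ≤ 1 / (M : ℝ) := by positivity
  have e1 : ∑ q ∈ (univ.filter fun q : Finset (Fin (3 * r + 1)) × Finset (Fin (3 * r + 1)) =>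
      q.1 ≠ q.2 ∧ (symmDiff q.1 q.2).card < 2 * C), (1 / (M : ℝ)) ^ (Final_f r (Sum.inl q)).card
        ≤ 1 / 4 := by
    refine le_trans ?_ h1
    have : ∀ q ∈ (univ.filter fun q : Finset (Fin (3 * r + 1)) × Finset (Fin (3 * r + 1)) =>
      q.1 ≠ q.2 ∧ (symmDiff q.1 q.2).card < 2 * C),
        (1 / (M : ℝ)) ^ (Final_f r (Sum.inl q)).card = (1 / (M : ℝ)) ^ 2 := by
      intro q hq
      simp only [mem_filter, mem_univ, true_and] at hq
      rw [Final_f]
      rw [card_pair hq.1]
    rw [sum_congr rfl this, sum_const, nsmul_eq_mul]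
    refine mul_le_mul_of_nonneg_right ?_ (by positivity)
    have := close r (2 * C)
    calc ((univ.filter fun q : Finset (Fin (3 * r + 1)) × Finset (Fin (3 * r + 1)) =>
      q.1 ≠ q.2 ∧ (symmDiff q.1 q.2).card < 2 * C).card : ℝ)
        ≤ ((2 ^ (3 * r + 1) * (3 * r + 2) ^ (2 * C) : ℕ) : ℝ) := by exact_mod_cast this
      _ = _ := by push_cast; ring
  have e2 : ∑ j ∈ Icc 1 k, ∑ q ∈ Final_bad r C j,
      (1 / (M : ℝ)) ^ (Final_f r (Sum.inr ⟨j, q⟩)).card ≤ 1 / 4 := by
    refine le_trans (sum_le_sum ?_) h2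
    intro j hj
    rw [mem_Icc] at hj
    have : ∀ q ∈ Final_bad r C j,
        (1 / (M : ℝ)) ^ (Final_f r (Sum.inr ⟨j, q⟩)).card = (1 / (M : ℝ)) ^ (j + 3) := by
      intro q hq
      simp only [Final_bad, mem_filter, mem_univ, true_and] at hq
      obtain ⟨h1, h2, h3, h4, h5, h6, h7, -⟩ := hq
      rw [Final_f]
      simp only
      rw [card_insert_of_notMem, card_insert_of_notMem, card_insert_of_notMem h4, h7]
      · rw [mem_insert, not_or]
        exact ⟨fun h => h6 h.symm, h3⟩
      · rw [mem_insert, mem_insert, not_or, not_or]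
        exact ⟨h1, fun h => h5 h.symm, h2⟩
    rw [sum_congr rfl this, sum_const, nsmul_eq_mul]
    refine mul_le_mul_of_nonneg_right ?_ (by positivity)
    have := bad_count r C j hj.1
    calc ((Final_bad r C j).card : ℝ)
        ≤ ((2 ^ (3 * r + 1) * 3 ^ (3 * r + 1) * 4 ^ (r * (j - 1)) *
          (3 * r + 2) ^ (C * j + 2 * C) * 2 ^ (2 ^ j) : ℕ) : ℝ) := by
          exact_mod_cast this
      _ = _ := by push_cast; ring
  linarith

theorem Final_patt_empty {α ι : Type*} [DecidableEq α] [DecidableEq ι] (S : Finset α)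
    (u : ι → Finset α) (F : Finset (Finset ι)) :
    patt S ∅ u F = ∅ ∨ patt S ∅ u F = S := by
  by_cases h : (∅ : Finset ι) ∈ F
  · right
    unfold patt
    rw [filter_eq_self]
    intro c _
    simpa using h
  · left
    unfold patt
    rw [filter_eq_empty_iff]
    intro c _
    simpa using h

theorem Final_patt_inter {α ι : Type*} [DecidableEq α] [DecidableEq ι] (S : Finset α)
    (O : Finset ι) (u : ι → Finset α) (F : Finset (Finset ι)) :
    patt S O u (F ∩ O.powerset) = patt S O u F := by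
  unfold patt
  apply filter_congr
  intro c _
  simp

theorem Final_symm {α : Type*} [DecidableEq α] (v x y : Finset α) :
    symmDiff (symmDiff v x) (symmDiff x y) = symmDiff v y := by
  ext c
  simp only [mem_symmDiff]
  tauto

/-- the cube theorem -/
theorem Final_cube (k : ℕ) : ∃ (r : ℕ) (X : Finset (Finset (Fin (3 * r + 1)))), X.Nonempty ∧
    ∀ x ∈ X, ∀ y ∈ X, ∀ V ⊆ X, x ∉ V → y ∉ V → V.card ≤ k → (symmDiff x y).card ≤ 2 * r →
      ∃ w ∈ X, w ∉ V ∧ 2 * r + 1 ≤ (symmDiff w x).card ∧ 2 * r + 1 ≤ (symmDiff w y).card ∧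
        ∀ v ∈ V, (symmDiff w v).card ≤ 2 * r := by
  obtain ⟨C, P, e, r₀, hC, hP, hcore⟩ := core k
  obtain ⟨r, M, hr, hM, ha, hb, hc⟩ := asym k C P e r₀ hP
  have hs := Final_sum_s r C k M hM hb hc
  have ht : ∑ q ∈ Final_good r C k, (1 - 1 / (M : ℝ)) ^ (Final_W r q).card ≤ 1 / 4 := by
    have hN : (0 : ℝ) < ((2 : ℝ) ^ (3 * r + 1)) ^ 2 * ((2 : ℝ) ^ (3 * r + 1) + 1) ^ k := by
      positivity
    have h1 : ∀ q ∈ Final_good r C k, (1 - 1 / (M : ℝ)) ^ (Final_W r q).card ≤
        1 / 4 / (((2 : ℝ) ^ (3 * r + 1)) ^ 2 * ((2 : ℝ) ^ (3 * r + 1) + 1) ^ k) := by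
      rintro ⟨x, y, V⟩ hq
      simp only [Final_good, mem_filter, mem_univ, true_and] at hq
      obtain ⟨h1, h2, h3⟩ := hq
      have h4 := hcore r hr (symmDiff x y) V (fun a => symmDiff a x) h2 h1 h3
      have h5 := Final_card_W r k x y V h1
      have h6 : 4 ^ r ≤ P * (r + 1) ^ e * ((Final_W r (x, y, V)).card + k) := by
        refine h4.trans (Nat.mul_le_mul_left _ ?_)
        convert h5
      have h7 := ha _ h6
      rw [le_div_iff₀ hN]
      linarith
    refine (sum_le_sum h1).trans ?_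
    rw [sum_const, nsmul_eq_mul]
    have h2 : ((Final_good r C k).card : ℝ) ≤
        ((2 : ℝ) ^ (3 * r + 1)) ^ 2 * ((2 : ℝ) ^ (3 * r + 1) + 1) ^ k := by
      exact_mod_cast Final_card_good r C k
    calc ((Final_good r C k).card : ℝ) * (1 / 4 / (((2 : ℝ) ^ (3 * r + 1)) ^ 2 *
          ((2 : ℝ) ^ (3 * r + 1) + 1) ^ k))
        ≤ (((2 : ℝ) ^ (3 * r + 1)) ^ 2 * ((2 : ℝ) ^ (3 * r + 1) + 1) ^ k) *
          (1 / 4 / (((2 : ℝ) ^ (3 * r + 1)) ^ 2 * ((2 : ℝ) ^ (3 * r + 1) + 1) ^ k)) :=
          mul_le_mul_of_nonneg_right h2 (by positivity)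
      _ = 1 / 4 := by field_simp
  obtain ⟨X, hX1, hX2⟩ := samp M hM (Final_s r C k) (Final_f r) (Final_good r C k) (Final_W r)
    (by linarith)
  -- close pairs do not occur
  have hclose : ∀ a ∈ X, ∀ b ∈ X, a ≠ b → 2 * C ≤ (symmDiff a b).card := by
    intro a hA b hB hab
    by_contra hcon
    have := hX1 (Sum.inl (a, b)) (by
      simp only [Final_s, inl_mem_disjSum, mem_filter, mem_univ, true_and]
      exact ⟨hab, by omega⟩)
    apply this
    simp only [Final_f]
    intro c hc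
    rw [mem_insert, mem_singleton] at hc
    rcases hc with rfl | rfl <;> assumption
  have hbad : ∀ j ∈ Icc 1 k, ∀ x ∈ X, ∀ y ∈ X, ∀ O ⊆ X, ∀ v ∈ X, ¬ Bad r C j x y O v := by
    intro j hj x hx y hy O hO v hv hB
    have := hX1 (Sum.inr ⟨j, (x, y, O, v)⟩) (by
      simp only [Final_s, inr_mem_disjSum, mem_sigma, Final_bad, mem_filter, mem_univ, true_and]
      exact ⟨hj, hB⟩)
    apply this
    simp only [Final_f]
    intro c hc
    rw [mem_insert, mem_insert, mem_insert] at hc
    rcases hc with rfl | rfl | rfl | h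
    · assumption
    · assumption
    · assumption
    · exact hO h
  have hgood : ∀ x ∈ X, ∀ y ∈ X, ∀ V ⊆ X, x ∉ V → y ∉ V → V.card ≤ k →
      (symmDiff x y).card ≤ 2 * r → (x, y, V) ∈ Final_good r C k := by
    intro x hx y hy V hV hxV hyV hVk hxy
    simp only [Final_good, mem_filter, mem_univ, true_and]
    refine ⟨hVk, hxy, ?_⟩
    intro v hv hact F
    by_contra hcon
    push Not at hcon
    have hvx : v ≠ x := fun h => hxV (h ▸ hv)
    have hvy : v ≠ y := fun h => hyV (h ▸ hv)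
    have c1 := hclose v (hV hv) x hx hvx
    have c2 := hclose v (hV hv) y hy hvy
    set O := (V.filter fun a => (symmDiff a x \ symmDiff x y).card < C).erase v with hO
    have hOV : O ⊆ V := (erase_subset _ _).trans (filter_subset _ _)
    by_cases hO0 : O = ∅
    · rw [hO0] at hcon
      rcases Final_patt_empty (symmDiff x y) (fun a => symmDiff a x) F with h | h
      · rw [h] at hcon
        have : symmDiff (symmDiff v x) ∅ = symmDiff v x := by
          ext c; simp [mem_symmDiff]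
        rw [this] at hcon
        omega
      · rw [h, Final_symm] at hcon
        omega
    · by_cases hxy' : x = y
      · subst hxy'
        have h0 : patt (symmDiff x x) O (fun a => symmDiff a x) F = ∅ := by
          unfold patt
          rw [symmDiff_self]
          rfl
        rw [h0] at hcon
        have : symmDiff (symmDiff v x) ∅ = symmDiff v x := by
          ext c; simp [mem_symmDiff]
        rw [this] at hcon
        omega
      · have hOc : O.card ∈ Icc 1 k := by
          rw [mem_Icc]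
          refine ⟨?_, (card_le_card hOV).trans hVk⟩
          exact card_pos.mpr (nonempty_iff_ne_empty.mpr hO0)
        refine hbad O.card hOc x hx y hy O (hOV.trans hV) v (hV hv) ?_
        refine ⟨hxy', fun h => hxV (hOV h), fun h => hyV (hOV h), notMem_erase _ _, hvx, hvy,
          rfl, hxy, ?_, F ∩ O.powerset, inter_subset_right, ?_⟩
        · intro a haO
          have := mem_of_mem_erase haO
          rw [mem_filter] at this
          exact this.2
        · rw [Final_patt_inter]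
          exact hcon
  have hwit : ∀ x ∈ X, ∀ y ∈ X, ∀ V ⊆ X, x ∉ V → y ∉ V → V.card ≤ k →
      (symmDiff x y).card ≤ 2 * r →
      ∃ w ∈ X, w ∉ V ∧ 2 * r + 1 ≤ (symmDiff w x).card ∧ 2 * r + 1 ≤ (symmDiff w y).card ∧
        ∀ v ∈ V, (symmDiff w v).card ≤ 2 * r := by
    intro x hx y hy V hV hxV hyV hVk hxy
    obtain ⟨w, hw, hwX⟩ := hX2 _ (hgood x hx y hy V hV hxV hyV hVk hxy)
    unfold Final_W at hw
    rw [mem_sdiff, mem_filter] at hw
    obtain ⟨⟨-, h1, h2, h3⟩, h4⟩ := hw
    exact ⟨w, hwX, h4, h1, h2, h3⟩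
  refine ⟨r, X, ?_, hwit⟩
  -- X is nonempty
  have h0 : ((∅ : Finset (Fin (3 * r + 1))), (∅ : Finset (Fin (3 * r + 1))),
      (∅ : Finset (Finset (Fin (3 * r + 1))))) ∈ Final_good r C k := by
    simp [Final_good]
  obtain ⟨w, -, hw⟩ := hX2 _ h0
  exact ⟨w, hw⟩

/-- the extension property of the graph on `X` for independent `U` with at most two points -/
theorem Final_ext (k : ℕ) : ∃ (r : ℕ) (X : Finset (Finset (Fin (3 * r + 1)))),
    ∀ U ⊆ X, ∀ V ⊆ X, Disjoint U V → U.card ≤ 2 → V.card ≤ k →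
      (∀ x ∈ U, ∀ y ∈ U, (symmDiff x y).card ≤ 2 * r) →
      ∃ w ∈ X, w ∉ U ∧ w ∉ V ∧ (∀ u ∈ U, 2 * r + 1 ≤ (symmDiff w u).card) ∧
        ∀ v ∈ V, (symmDiff w v).card ≤ 2 * r := by
  obtain ⟨r, X, hne, h⟩ := Final_cube k
  refine ⟨r, X, ?_⟩
  have hself : ∀ w : Finset (Fin (3 * r + 1)), ¬ 2 * r + 1 ≤ (symmDiff w w).card := by
    intro w hw
    rw [symmDiff_self] at hw
    simp at hw
  intro U hU V hV hUV hU2 hVk hind
  by_cases hU0 : U = ∅
  · subst hU0
    obtain ⟨x, hx, hxV⟩ : ∃ x ∈ X, x ∉ V := by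
      by_contra hcon
      push Not at hcon
      obtain ⟨x, hx⟩ := hne
      have hself' : (symmDiff x x).card ≤ 2 * r := by
        have := hself x
        omega
      obtain ⟨w, hwX, hwV, hw1, -, -⟩ := h x hx x hx (V.erase x) ((erase_subset _ _).trans hV)
        (notMem_erase _ _) (notMem_erase _ _) ((card_erase_le).trans hVk) hself'
      apply hwV
      rw [mem_erase]
      refine ⟨?_, hcon w hwX⟩
      rintro rfl
      exact hself _ hw1
    have hself' : (symmDiff x x).card ≤ 2 * r := by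
      have := hself x
      omega
    obtain ⟨w, hwX, hwV, -, -, hw⟩ := h x hx x hx V hV hxV hxV hVk hself'
    exact ⟨w, hwX, by simp, hwV, by simp, hw⟩
  · obtain ⟨x, hx, y, hy, hxy⟩ : ∃ x ∈ U, ∃ y ∈ U, ∀ u ∈ U, u = x ∨ u = y := by
      obtain ⟨x, hx⟩ := nonempty_iff_ne_empty.mpr hU0
      by_cases h1 : ∀ u ∈ U, u = x
      · exact ⟨x, hx, x, hx, fun u hu => Or.inl (h1 u hu)⟩
      · push Not at h1
        obtain ⟨y, hy, hyx⟩ := h1
        refine ⟨x, hx, y, hy, ?_⟩
        intro u hu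
        by_contra hcon
        push Not at hcon
        have : ({x, y, u} : Finset (Finset (Fin (3 * r + 1)))).card ≤ U.card := by
          apply card_le_card
          intro c hc
          simp only [mem_insert, mem_singleton] at hc
          rcases hc with rfl | rfl | rfl <;> assumption
        rw [card_eq_three.mpr ⟨x, y, u, hyx.symm, fun h => hcon.1 h.symm, fun h => hcon.2 h.symm,
          rfl⟩] at this
        omega
    obtain ⟨w, hwX, hwV, hw1, hw2, hw3⟩ := h x (hU hx) y (hU hy) V hV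
      (fun h' => (disjoint_left.mp hUV) hx h') (fun h' => (disjoint_left.mp hUV) hy h') hVk
      (hind x hx y hy)
    have hwU : ∀ u ∈ U, 2 * r + 1 ≤ (symmDiff w u).card := by
      intro u hu
      rcases hxy u hu with rfl | rfl
      · exact hw1
      · exact hw2
    refine ⟨w, hwX, ?_, hwV, hwU, hw3⟩
    intro hwU'
    exact hself w (hwU w hwU')

theorem final (k : ℕ) : ∃ (n : ℕ) (G : SimpleGraph (Fin n)), G.CliqueFree 3 ∧
    ∀ U V : Finset (Fin n), Disjoint U V → U.card ≤ 2 → V.card ≤ k →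
      (∀ x ∈ U, ∀ y ∈ U, ¬ G.Adj x y) →
      ∃ w, w ∉ U ∧ w ∉ V ∧ (∀ u ∈ U, G.Adj w u) ∧ ∀ v ∈ V, ¬ G.Adj w v := by
  obtain ⟨r, X, h⟩ := Final_ext k
  let p : Fin X.card → Finset (Fin (3 * r + 1)) := fun i => (X.equivFin.symm i).1
  have hp : Function.Injective p := fun a b hab =>
    X.equivFin.symm.injective (Subtype.ext hab)
  have hpX : ∀ i, p i ∈ X := fun i => (X.equivFin.symm i).2
  have hpS : ∀ w ∈ X, ∃ i, p i = w := by
    intro w hw
    refine ⟨X.equivFin ⟨w, hw⟩, ?_⟩
    simp [p]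
  let G : SimpleGraph (Fin X.card) :=
    { Adj := fun i j => 2 * r + 1 ≤ (symmDiff (p i) (p j)).card
      symm := by
        constructor
        intro i j hij
        rw [symmDiff_comm]
        exact hij
      loopless := by
        constructor
        intro i hi
        rw [symmDiff_self] at hi
        simp at hi }
  have hG : ∀ i j, G.Adj i j ↔ 2 * r + 1 ≤ (symmDiff (p i) (p j)).card := fun i j => Iff.rfl
  refine ⟨X.card, G, ?_, ?_⟩
  · intro s hs
    rw [SimpleGraph.is3Clique_iff] at hs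
    obtain ⟨a, b, c, hab, hac, hbc, -⟩ := hs
    rw [hG] at hab hac hbc
    have := symm_triangle (p a) (p b) (p c)
    rw [Fintype.card_fin] at this
    omega
  · intro U V hUV hU hV hind
    obtain ⟨w, hwX, h1, h2, h3, h4⟩ := h (U.image p) (by
        intro c hc
        rw [mem_image] at hc
        obtain ⟨i, -, rfl⟩ := hc
        exact hpX i) (V.image p) (by
        intro c hc
        rw [mem_image] at hc
        obtain ⟨i, -, rfl⟩ := hc
        exact hpX i) ((disjoint_image hp).mpr hUV) (card_image_le.trans hU)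
      (card_image_le.trans hV) (by
        intro x hx y hy
        rw [mem_image] at hx hy
        obtain ⟨i, hi, rfl⟩ := hx
        obtain ⟨j, hj, rfl⟩ := hy
        have := hind i hi j hj
        rw [hG] at this
        omega)
    obtain ⟨i, rfl⟩ := hpS w hwX
    refine ⟨i, fun hi => h1 (mem_image_of_mem p hi), fun hi => h2 (mem_image_of_mem p hi), ?_, ?_⟩
    · intro u hu
      rw [hG]
      exact h3 _ (mem_image_of_mem p hu)
    · intro v hv
      rw [hG]
      have := h4 _ (mem_image_of_mem p hv)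
      omega

end Pool.Agent.Hen
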